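import Pool.Agent.helper76.UF.Spec

set_option autoImplicit false

namespace Pool.Agent.UF

open Finset Polynomial NumberField

lemma REL_fer (m c : ℕ) : (2 ^ (2 ^ c)) ^ (2 ^ m) + 1 = fer (m + c) := by
  unfold fer
  rw [← pow_mul, ← pow_add, Nat.add_comm c m]

lemma REL_ff_aut {R : Type} [CommRing R] (a : ℕ) (x : R) (t : ℕ) (σ : R ≃+* R) (hσ : σ x = x ^ t) :
    ff a x t = σ (ff a x 1) := by
  simp [ff, hσ]

lemma REL_quk (h4 : QUK_stmt) {R : Type} [CommRing R] (m a t : ℕ) (x : R) (hC : Cyc (2 ^ m) x)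
    (ht : Odd t) :
    (∀ n₀ : ℤ, ff a x t ∣ (n₀ : R) → ((a ^ (2 ^ m) + 1 : ℕ) : ℤ) ∣ n₀) ∧
      ff a x t ∣ ((a ^ (2 ^ m) + 1 : ℕ) : R) := by
  obtain ⟨σ, hσ⟩ := hC.2.2 t ht
  have hC' : Cyc (1 * 2 ^ m) x := by rw [one_mul]; exact hC
  obtain ⟨q1, q2⟩ := h4 (2 ^ m) 1 a R x (Nat.one_le_two_pow) le_rfl hC'
  have hf : ff a x t = σ (ff a x 1) := REL_ff_aut a x t σ hσ
  refine ⟨fun n₀ hn => ?_, ?_⟩
  · apply q1 n₀
    rw [hf] at hn
    have h := map_dvd σ.symm hn
    rw [RingEquiv.symm_apply_apply, map_intCast] at h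
    exact h
  · rw [hf]
    have h := map_dvd σ q2
    rwa [map_natCast] at h

lemma REL_rep (s : Finset ℕ) (e : ℕ → ℕ) {R : Type} [CommRing R] (f : ℕ → R) :
    ((∑ t ∈ s, Multiset.replicate (e t) t).map f).prod = ∏ t ∈ s, f t ^ e t := by
  classical
  induction s using Finset.induction_on with
  | empty => simp
  | insert a s ha ih =>
    rw [Finset.sum_insert ha, Multiset.map_add, Multiset.prod_add, ih, Finset.prod_insert ha,
      Multiset.map_replicate, Multiset.prod_replicate]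

lemma REL_card (s : Finset ℕ) (e : ℕ → ℕ) :
    Multiset.card (∑ t ∈ s, Multiset.replicate (e t) t) = ∑ t ∈ s, e t := by
  classical
  induction s using Finset.induction_on with
  | empty => simp
  | insert a s ha ih =>
    rw [Finset.sum_insert ha, Multiset.card_add, ih, Finset.sum_insert ha, Multiset.card_replicate]

lemma REL_mem (s : Finset ℕ) (e : ℕ → ℕ) (t : ℕ)
    (h : t ∈ ∑ t ∈ s, Multiset.replicate (e t) t) : t ∈ s := by
  rw [Multiset.mem_sum] at h
  obtain ⟨i, hi, h⟩ := h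
  rw [Multiset.mem_replicate] at h
  rw [h.2]
  exact hi

lemma REL_count (s : Finset ℕ) (e : ℕ → ℕ) (t : ℕ) (ht : t ∈ s) :
    Multiset.count t (∑ t ∈ s, Multiset.replicate (e t) t) = e t := by
  classical
  rw [Multiset.count_sum']
  rw [Finset.sum_eq_single t]
  · rw [Multiset.count_replicate_self]
  · intro b _ hb
    rw [Multiset.count_replicate, if_neg hb]
  · intro h
    exact absurd ht h

theorem REL (h1 : BAS_stmt) (h2 : H_stmt) (h3 : CPR_stmt) (h4 : QUK_stmt) (h5 : PDI_stmt)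
    (h6 : ANR_stmt) (h7 : NPP_stmt) (h8 : RL1_stmt) : REL_stmt := by
  classical
  intro m c r K _ _ _ z hz hr hbd s hne hodd hdiff hsum D e hD he hprin
  have hC : Cyc (2 ^ m) z := h1 m K z hz
  set a : ℕ := 2 ^ (2 ^ c) with ha
  have hF : a ^ (2 ^ m) + 1 = fer (m + c) := REL_fer m c
  set f : ℕ → 𝓞 K := ff a z with hf
  set I : ℕ → Ideal (𝓞 K) := fun t => Ideal.span {(D t : 𝓞 K), f t} with hI
  set J : ℕ → Ideal (𝓞 K) := fun t => Ideal.span {f t} with hJ
  have hfd : ∀ t ∈ s, (∀ n₀ : ℤ, f t ∣ (n₀ : 𝓞 K) → ((fer (m + c) : ℕ) : ℤ) ∣ n₀) ∧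
      f t ∣ ((fer (m + c) : ℕ) : 𝓞 K) := by
    intro t ht
    have h := REL_quk h4 m a t z hC (hodd t ht)
    rw [hF] at h
    exact h
  have hIt : ∀ t ∈ s, I t ≠ ⊤ ∧ I t ≠ J t := by
    intro t ht
    obtain ⟨hd1, hd2, hd3, _⟩ := hD t ht
    exact h5 (𝓞 K) (f t) (fer (m + c)) (D t) (hfd t ht).1 (hfd t ht).2 hd1 hd2 hd3
  have hIJ : ∀ t ∈ s, I t ∣ J t := by
    intro t _
    rw [Ideal.dvd_iff_le]
    apply Ideal.span_mono
    intro x hx
    rw [Set.mem_singleton_iff] at hx
    rw [hx]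
    exact Set.mem_insert_of_mem _ rfl
  obtain ⟨δ, hδ⟩ := hprin.principal
  rw [Ideal.submodule_span_eq] at hδ
  have hδ' : ∏ t ∈ s, (I t) ^ (e t) = Ideal.span {δ} := hδ
  -- delta divides the product
  have hdiv : δ ∣ ((∑ t ∈ s, Multiset.replicate (e t) t).map f).prod := by
    rw [REL_rep, ← Ideal.span_singleton_le_span_singleton, ← Ideal.dvd_iff_le, ← hδ', ← Ideal.prod_span_singleton]
    apply Finset.prod_dvd_prod_of_dvd
    intro t ht
    rw [← Ideal.span_singleton_pow]
    exact pow_dvd_pow_of_dvd (hIJ t ht) _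
  obtain ⟨s', hs', hass⟩ := h2 m c r K z hz hr hbd (∑ t ∈ s, Multiset.replicate (e t) t)
    (by rw [REL_card]; exact he) (fun t ht => hodd t (REL_mem s e t ht))
    (fun t ht u hu => hsum t (REL_mem s e t ht) u (REL_mem s e u hu)) δ hdiv
  set j : ℕ → ℕ := fun t => Multiset.count t s' with hj
  have hprod : (s'.map f).prod = ∏ t ∈ s, f t ^ j t := by
    rw [Finset.prod_multiset_map_count]
    apply Finset.prod_subset
    · intro t ht
      rw [Multiset.mem_toFinset] at ht
      exact REL_mem s e t (Multiset.mem_of_le hs' ht)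
    · intro t _ ht
      rw [Multiset.mem_toFinset] at ht
      rw [Multiset.count_eq_zero_of_notMem ht, pow_zero]
  have hjle : ∀ t ∈ s, j t ≤ e t := by
    intro t ht
    have h := Multiset.count_le_of_le t hs'
    rw [REL_count s e t ht] at h
    exact h
  have hideal : ∏ t ∈ s, (I t) ^ (e t) = ∏ t ∈ s, (J t) ^ (j t) := by
    rw [hδ', Ideal.span_singleton_eq_span_singleton.2 hass]
    have h9 : (Multiset.map (ff (2 ^ 2 ^ c) z) s').prod = ∏ t ∈ s, f t ^ j t := hprod
    rw [h9, ← Ideal.prod_span_singleton]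
    apply Finset.prod_congr rfl
    intro t _
    rw [← Ideal.span_singleton_pow]
  have hcop : ∀ t ∈ s, ∀ u ∈ s, t ≠ u → IsCoprime (J t) (J u) := by
    intro t ht u hu htu
    rw [Ideal.isCoprime_span_singleton_iff]
    exact h3 m c (𝓞 K) z hC.1.1 t u (hodd t ht) (hodd u hu) (hdiff t ht u hu htu)
  obtain ⟨t, ht⟩ := hne
  have hkey := h8 (𝓞 K) s I J e j hIJ hcop hideal t ht
  have hnorm : (Ideal.absNorm (I t)) ^ (e t) = (fer (m + c)) ^ (j t) := by
    have h := congrArg Ideal.absNorm hkey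
    rw [map_pow, map_pow] at h
    have h10 : Ideal.absNorm (J t) = fer (m + c) := by
      rw [← hF]
      exact h6 m a t K z hC (hodd t ht)
    rw [h10] at h
    exact h
  have het : 1 ≤ e t := (hD t ht).2.2.2
  have hFpos : 0 < fer (m + c) := by unfold fer; positivity
  rcases Nat.eq_zero_or_pos (j t) with hj0 | hjpos
  · rw [hj0, pow_zero] at hnorm
    have h11 : Ideal.absNorm (I t) = 1 := by
      rcases Nat.pow_eq_one.1 hnorm with h | h
      · exact h
      · omega
    exact (hIt t ht).1 (Ideal.absNorm_eq_one_iff.1 h11)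
  · rcases Nat.lt_or_ge (j t) (e t) with hlt | hge
    · exact h7 (m + c) (j t) (e t) (Ideal.absNorm (I t)) hjpos hlt hnorm
    · have heq : j t = e t := le_antisymm (hjle t ht) hge
      rw [heq] at hnorm
      have h12 : Ideal.absNorm (I t) = fer (m + c) :=
        Nat.pow_left_injective (by omega : e t ≠ 0) hnorm
      obtain ⟨Q, hQ⟩ := hIJ t ht
      have h13 : Ideal.absNorm (J t) = Ideal.absNorm (I t) * Ideal.absNorm Q := by
        rw [hQ, map_mul]
      have h10 : Ideal.absNorm (J t) = fer (m + c) := by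
        rw [← hF]
        exact h6 m a t K z hC (hodd t ht)
      rw [h10, h12] at h13
      have h14 : Ideal.absNorm Q = 1 := by
        have : fer (m + c) * Ideal.absNorm Q = fer (m + c) * 1 := by rw [mul_one]; exact h13.symm
        exact Nat.eq_of_mul_eq_mul_left hFpos this
      have h15 : Q = ⊤ := Ideal.absNorm_eq_one_iff.1 h14
      apply (hIt t ht).2
      rw [hQ, h15, Ideal.mul_top]

end Pool.Agent.UF
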