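import Pool.Agent.helper76.UF.SpecB
import Pool.Agent.helper76.UF.REL

set_option autoImplicit false

namespace Pool.Agent.UF

open Finset Polynomial NumberField nonZeroDivisors

/-- reindexing `t ↦ M - t` on the odd numbers below `M = 2^(m+1)` -/
lemma RE2_reindex {X : Type} [CommMonoid X] (m : ℕ) (G : ℕ → X) :
    ∏ t ∈ (range (2 ^ (m + 1))).filter (fun t => Odd t), G (2 ^ (m + 1) - t)
      = ∏ t ∈ (range (2 ^ (m + 1))).filter (fun t => Odd t), G t := by
  have hE : Even (2 ^ (m + 1)) := ⟨2 ^ m, by ring⟩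
  apply Finset.prod_nbij' (fun t => 2 ^ (m + 1) - t) (fun t => 2 ^ (m + 1) - t)
  · intro t ht
    simp only [Finset.mem_filter, Finset.mem_range] at ht ⊢
    refine ⟨?_, ?_⟩
    · have := ht.2.pos
      omega
    · exact Nat.Even.sub_odd (le_of_lt ht.1) hE ht.2
  · intro t ht
    simp only [Finset.mem_filter, Finset.mem_range] at ht ⊢
    refine ⟨?_, ?_⟩
    · have := ht.2.pos
      omega
    · exact Nat.Even.sub_odd (le_of_lt ht.1) hE ht.2
  · intro t ht
    simp only [Finset.mem_filter, Finset.mem_range] at ht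
    omega
  · intro t ht
    simp only [Finset.mem_filter, Finset.mem_range] at ht
    omega
  · intro t _
    rfl

lemma RE2_bf {R : Type} [CommRing R] (m a : ℕ) (x : R) (b : R ≃+* R) (hx : x ^ (2 ^ m) = -1)
    (hb : b x * x = 1) (t : ℕ) (ht : t < 2 ^ (m + 1)) :
    b (ff a x t) = ff a x (2 ^ (m + 1) - t) := by
  have hM : x ^ (2 ^ (m + 1)) = 1 := by
    rw [pow_succ, pow_mul, hx]
    norm_num
  have h1 : b x ^ t * x ^ t = 1 := by rw [← mul_pow, hb, one_pow]
  have h2 : x ^ (2 ^ (m + 1) - t) * x ^ t = 1 := by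
    rw [← pow_add, Nat.sub_add_cancel (le_of_lt ht), hM]
  have h3 : b x ^ t = x ^ (2 ^ (m + 1) - t) := by
    have : b x ^ t = b x ^ t * (x ^ (2 ^ (m + 1) - t) * x ^ t) := by rw [h2, mul_one]
    rw [this]
    calc b x ^ t * (x ^ (2 ^ (m + 1) - t) * x ^ t)
        = (b x ^ t * x ^ t) * x ^ (2 ^ (m + 1) - t) := by ring
      _ = x ^ (2 ^ (m + 1) - t) := by rw [h1, one_mul]
  simp only [ff, map_sub, map_natCast, map_pow, h3]

lemma RE2_count_prod {R : Type} [CommRing R] (T : Finset ℕ) (s : Multiset ℕ) (g : ℕ → R)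
    (hs : ∀ t ∈ s, t ∈ T) : (s.map g).prod = ∏ t ∈ T, g t ^ Multiset.count t s := by
  classical
  rw [Finset.prod_multiset_map_count]
  apply Finset.prod_subset
  · intro t ht
    rw [Multiset.mem_toFinset] at ht
    exact hs t ht
  · intro t _ ht
    rw [Multiset.mem_toFinset] at ht
    rw [Multiset.count_eq_zero_of_notMem ht, pow_zero]

theorem RE2 (h1 : BAS_stmt) (h2 : BIN_stmt) (h3 : CO2_stmt) (h4 : CLS_stmt) (h5 : CPR_stmt)
    (h6 : CMP_stmt) (h7 : ANI_stmt) (h8 : RL2_stmt) (h9 : RAR_stmt) : RE2_stmt := by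
  classical
  intro m c r K _ _ _ z hz hr hbd D hDF hD1 hDlt P hP e hsum hprod t₀ ht₀ ht₀lt
  have hC : Cyc (2 ^ m) z := h1 m K z hz
  obtain ⟨b, hb, _⟩ := h2 (2 ^ m) (𝓞 K) z Nat.one_le_two_pow hC
  have hzN : z ^ (2 ^ m) = -1 := hC.1.1
  obtain ⟨D', hDD'⟩ := hDF
  have hFer : (2 ^ (2 ^ c)) ^ (2 ^ m) + 1 = fer (m + c) := REL_fer m c
  have hFpos : 0 < fer (m + c) := by unfold fer; positivity
  have hD'pos : 0 < D' := by
    rcases Nat.eq_zero_or_pos D' with h | h
    · rw [h, mul_zero] at hDD'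
      omega
    · exact h
  have hE : Even (2 ^ (m + 1)) := ⟨2 ^ m, by ring⟩
  -- notation
  set M : ℕ := 2 ^ (m + 1) with hM
  set T : Finset ℕ := (range M).filter (fun t => Odd t) with hT
  set f : ℕ → 𝓞 K := ff (2 ^ (2 ^ c)) z with hf
  have hTodd : ∀ t ∈ T, Odd t := fun t ht => (Finset.mem_filter.1 ht).2
  have hTlt : ∀ t ∈ T, t < M := fun t ht => Finset.mem_range.1 (Finset.mem_filter.1 ht).1
  have hTsub : ∀ t ∈ T, M - t ∈ T := by
    intro t ht
    have h1 := hTodd t ht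
    have h2 := hTlt t ht
    rw [hT, Finset.mem_filter, Finset.mem_range]
    have := h1.pos
    exact ⟨by omega, Nat.Even.sub_odd (le_of_lt h2) hE h1⟩
  have ht₀T : t₀ ∈ T := by
    rw [hT, Finset.mem_filter, Finset.mem_range]
    exact ⟨ht₀lt, ht₀⟩
  set I : ℕ → ℕ → Ideal (𝓞 K) := fun E t => Ideal.span {(E : 𝓞 K), f t} with hI
  set J : ℕ → Ideal (𝓞 K) := fun t => Ideal.span {f t} with hJ
  set u : ℕ → ℕ := fun t => (e t).natAbs with hu
  set Dt : ℕ → ℕ := fun t => if 0 ≤ e t then D else D' with hDt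
  set Ds : ℕ → ℕ := fun t => if 0 ≤ e t then D' else D with hDs
  have hmulD : ∀ t, Odd t → I D t * I D' t = J t := fun t ht =>
    h6 m c (𝓞 K) z hzN t ht D D' (by rw [hFer]; exact hDD'.symm)
  have hmul : ∀ t, Odd t → I (Dt t) t * I (Ds t) t = J t := by
    intro t ht
    by_cases h : 0 ≤ e t
    · simp only [hDt, hDs, h, if_true]
      exact hmulD t ht
    · simp only [hDt, hDs, h, if_false]
      rw [mul_comm]
      exact hmulD t ht
  have hf0 : ∀ t, Odd t → f t ≠ 0 := by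
    intro t ht h0
    have h10 : (((2 ^ (2 ^ c) : ℕ)) : 𝓞 K) = z ^ t := by
      have : (((2 ^ (2 ^ c) : ℕ)) : 𝓞 K) - z ^ t = 0 := h0
      exact sub_eq_zero.1 this
    have h11 : (((2 ^ (2 ^ c) : ℕ)) : 𝓞 K) ^ (2 ^ m) = -1 := by
      rw [h10, ← pow_mul, mul_comm t, pow_mul, hzN]
      exact ht.neg_one_pow
    have h12 : (((((2 ^ (2 ^ c)) ^ (2 ^ m) + 1 : ℕ))) : 𝓞 K) = 0 := by
      push_cast
      push_cast at h11
      rw [h11]
      ring
    have h13 := Nat.cast_eq_zero.1 h12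
    omega
  have hJ0 : ∀ t, Odd t → J t ≠ 0 := by
    intro t ht h
    have h14 : Ideal.span {f t} = ⊥ := h
    rw [Ideal.span_singleton_eq_bot] at h14
    exact hf0 t ht h14
  have hIJ : ∀ E t, I E t ∣ J t := by
    intro E t
    rw [Ideal.dvd_iff_le]
    apply Ideal.span_mono
    intro x hx
    rw [Set.mem_singleton_iff] at hx
    rw [hx]
    exact Set.mem_insert_of_mem _ rfl
  have hI0 : ∀ E t, Odd t → I E t ≠ 0 := by
    intro E t ht h
    have h15 := hIJ E t
    rw [h, zero_dvd_iff] at h15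
    exact hJ0 t ht h15
  -- the class group
  have hprin : (∏ t ∈ T, (I (Dt t) t) ^ (u t)).IsPrincipal := by
    set Q : ℕ → (Ideal (𝓞 K))⁰ := fun t =>
      if ht : Odd t then ⟨I (Dt t) t, mem_nonZeroDivisors_iff_ne_zero.2 (hI0 _ t ht)⟩ else 1 with hQ
    have hQv : ∀ t, Odd t → ((Q t : (Ideal (𝓞 K))⁰) : Ideal (𝓞 K)) = I (Dt t) t := by
      intro t ht
      simp only [hQ, ht, dif_pos]
    have hkey : ∀ t ∈ T, (ClassGroup.mk0 (Q t)) ^ (u t) = (ClassGroup.mk0 (P t)) ^ (e t) := by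
      intro t ht
      have hto := hTodd t ht
      by_cases h : 0 ≤ e t
      · have hQP : Q t = P t := by
          apply Subtype.ext
          rw [hQv t hto, hP t]
          simp only [hI, hDt, h, if_true]
        rw [hQP]
        have h16 : e t = ((u t : ℕ) : ℤ) := by
          simp only [hu]
          omega
        rw [h16, zpow_natCast]
      · have h17 : ClassGroup.mk0 (Q t) * ClassGroup.mk0 (P t) = 1 := by
          rw [← map_mul, ClassGroup.mk0_eq_one_iff]
          have h18 : (((Q t * P t : (Ideal (𝓞 K))⁰)) : Ideal (𝓞 K)) = J t := by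
            rw [Submonoid.coe_mul, hQv t hto, hP t]
            have h19 := hmulD t hto
            simp only [hDt, h, if_false]
            rw [mul_comm]
            exact h19
          rw [h18]
          exact ⟨⟨f t, rfl⟩⟩
        have h20 : ClassGroup.mk0 (Q t) = (ClassGroup.mk0 (P t))⁻¹ := eq_inv_of_mul_eq_one_left h17
        have h16 : e t = -((u t : ℕ) : ℤ) := by
          simp only [hu]
          omega
        rw [h20, h16, zpow_neg, zpow_natCast, inv_pow]
    have h21 : ∏ t ∈ T, (ClassGroup.mk0 (Q t)) ^ (u t) = 1 := by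
      rw [Finset.prod_congr rfl hkey]
      exact hprod
    have h22 : ClassGroup.mk0 (∏ t ∈ T, (Q t) ^ (u t)) = 1 := by
      rw [map_prod]
      simp only [map_pow]
      exact h21
    rw [ClassGroup.mk0_eq_one_iff] at h22
    have h23 : (((∏ t ∈ T, (Q t) ^ (u t) : (Ideal (𝓞 K))⁰)) : Ideal (𝓞 K))
        = ∏ t ∈ T, (I (Dt t) t) ^ (u t) := by
      rw [Submonoid.coe_finsetProd]
      apply Finset.prod_congr rfl
      intro t ht
      rw [SubmonoidClass.coe_pow, hQv t (hTodd t ht)]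
    rw [h23] at h22
    exact h22
  obtain ⟨δ, hδ⟩ := hprin.principal
  rw [Ideal.submodule_span_eq] at hδ
  set B : Ideal (𝓞 K) := ∏ t ∈ T, (I (Ds t) t) ^ (u t) with hB
  set α : 𝓞 K := ∏ t ∈ T, f t ^ u t with hα
  have hα0 : α ≠ 0 := by
    rw [hα, Finset.prod_ne_zero_iff]
    intro t ht
    exact pow_ne_zero _ (hf0 t (hTodd t ht))
  have hAB : Ideal.span {δ} * B = Ideal.span {α} := by
    rw [← hδ, hB, ← Finset.prod_mul_distrib, hα, ← Ideal.prod_span_singleton]
    apply Finset.prod_congr rfl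
    intro t ht
    rw [← mul_pow, hmul t (hTodd t ht), ← Ideal.span_singleton_pow]
  have hδα : δ ∣ α := by
    rw [← Ideal.span_singleton_le_span_singleton, ← hAB]
    exact Ideal.mul_le_left
  obtain ⟨ε, hε⟩ := hδα
  have hδ0 : δ ≠ 0 := by
    intro h
    rw [h, zero_mul] at hε
    exact hα0 hε
  have hBε : B = Ideal.span {ε} := by
    have h24 : Ideal.span {δ} * B = Ideal.span {δ} * Ideal.span {ε} := by
      rw [hAB, hε, Ideal.span_singleton_mul_span_singleton]
    have h25 : Ideal.span {δ} ≠ (0 : Ideal (𝓞 K)) := by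
      intro h
      have h26 : Ideal.span {δ} = ⊥ := h
      rw [Ideal.span_singleton_eq_bot] at h26
      exact hδ0 h26
    exact mul_left_cancel₀ h25 h24
  -- rho
  set ρ : 𝓞 K := b δ * ε with hρ
  have hρρ : ρ * b ρ = α * b α := by
    rw [hρ, hε, map_mul, map_mul, hb.2]
    ring
  set s : Multiset ℕ := ∑ t ∈ T, Multiset.replicate (u t) t with hs
  have hsα : (s.map f).prod = α := by rw [hs, REL_rep, hα]
  have hscard : Multiset.card s ≤ r := by
    rw [hs, REL_card]
    have h27 : ((∑ t ∈ T, u t : ℕ) : ℤ) ≤ r := by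
      push_cast
      have h28 : ∀ t ∈ T, ((u t : ℕ) : ℤ) = |e t| := by
        intro t _
        simp only [hu, Int.natCast_natAbs]
      rw [Finset.sum_congr rfl h28]
      exact hsum
    exact_mod_cast h27
  have hsmem : ∀ t ∈ s, t ∈ T := fun t ht => REL_mem T u t ht
  obtain ⟨s₁, s₂, hs12, hass⟩ := h4 (𝓞 K) b hb.2 f hf0 r
    (fun s hs ho ρ hρ => h3 m c r K z hz hr hbd b hb s hs ho ρ hρ) s hscard
    (fun t ht => hTodd t (hsmem t ht)) ρ (by rw [hsα]; exact hρρ)
  have hs1mem : ∀ t ∈ s₁, t ∈ T := fun t ht =>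
    hsmem t (by rw [← hs12]; exact Multiset.mem_add.2 (Or.inl ht))
  have hs2mem : ∀ t ∈ s₂, t ∈ T := fun t ht =>
    hsmem t (by rw [← hs12]; exact Multiset.mem_add.2 (Or.inr ht))
  set k : ℕ → ℕ := fun t => Multiset.count t s₁ + Multiset.count (M - t) s₂ with hk
  have hbf : ∀ t ∈ T, b (f t) = f (M - t) := fun t ht =>
    RE2_bf m (2 ^ (2 ^ c)) z b hzN hb.1 t (hTlt t ht)
  have hspan1 : Ideal.span {ρ} = ∏ t ∈ T, (J t) ^ (k t) := by
    rw [Ideal.span_singleton_eq_span_singleton.2 hass]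
    have h29 : (s₁.map f).prod * (s₂.map (fun t => b (f t))).prod = ∏ t ∈ T, f t ^ k t := by
      rw [RE2_count_prod T s₁ f hs1mem, RE2_count_prod T s₂ (fun t => b (f t)) hs2mem]
      have h30 : ∏ t ∈ T, (b (f t)) ^ Multiset.count t s₂
          = ∏ t ∈ T, f t ^ Multiset.count (M - t) s₂ := by
        rw [← RE2_reindex m (fun t => f t ^ Multiset.count (2 ^ (m + 1) - t) s₂)]
        apply Finset.prod_congr rfl
        intro t ht
        have h31 : M - (M - t) = t := Nat.sub_sub_self (le_of_lt (hTlt t ht))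
        rw [hbf t ht]
        show f (M - t) ^ Multiset.count t s₂ = f (M - t) ^ Multiset.count (M - (M - t)) s₂
        rw [h31]
      rw [h30, ← Finset.prod_mul_distrib]
      apply Finset.prod_congr rfl
      intro t _
      rw [← pow_add]
    rw [h29, ← Ideal.prod_span_singleton]
    apply Finset.prod_congr rfl
    intro t _
    rw [← Ideal.span_singleton_pow]
  set A : ℕ → Ideal (𝓞 K) := fun t => I (Dt (M - t)) t ^ u (M - t) * I (Ds t) t ^ u t with hA
  have hmapI : ∀ E : ℕ, ∀ t ∈ T, Ideal.map (b : 𝓞 K →+* 𝓞 K) (I E t) = I E (M - t) := by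
    intro E t ht
    simp only [hI]
    rw [Ideal.map_span, Set.image_pair]
    have h32 : (b : 𝓞 K →+* 𝓞 K) (f t) = f (M - t) := hbf t ht
    have h33 : (b : 𝓞 K →+* 𝓞 K) ((E : ℕ) : 𝓞 K) = (E : 𝓞 K) := map_natCast _ E
    rw [h32, h33]
  have hspan2 : Ideal.span {ρ} = ∏ t ∈ T, A t := by
    have h34 : Ideal.span {ρ} = Ideal.span {b δ} * Ideal.span {ε} := by
      rw [hρ, Ideal.span_singleton_mul_span_singleton]
    have h35 : Ideal.span {b δ} = Ideal.map (b : 𝓞 K →+* 𝓞 K) (Ideal.span {δ}) := by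
      rw [Ideal.map_span, Set.image_singleton]
      rfl
    have h36 : Ideal.map (b : 𝓞 K →+* 𝓞 K) (∏ t ∈ T, (I (Dt t) t) ^ (u t))
        = ∏ t ∈ T, (I (Dt (M - t)) t) ^ (u (M - t)) := by
      have h37 : Ideal.map (b : 𝓞 K →+* 𝓞 K) (∏ t ∈ T, (I (Dt t) t) ^ (u t))
          = ∏ t ∈ T, (Ideal.map (b : 𝓞 K →+* 𝓞 K) (I (Dt t) t)) ^ (u t) := by
        have h38 := map_prod (Ideal.mapHom (b : 𝓞 K →+* 𝓞 K)) (fun t => (I (Dt t) t) ^ (u t)) T
        simp only [map_pow] at h38
        exact h38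
      rw [h37, ← RE2_reindex m (fun t => (I (Dt (2 ^ (m + 1) - t)) t) ^ (u (2 ^ (m + 1) - t)))]
      apply Finset.prod_congr rfl
      intro t ht
      have h31 : M - (M - t) = t := Nat.sub_sub_self (le_of_lt (hTlt t ht))
      rw [hmapI _ t ht]
      show I (Dt t) (M - t) ^ u t = I (Dt (M - (M - t))) (M - t) ^ u (M - (M - t))
      rw [h31]
    rw [h34, h35, ← hδ, h36, ← hBε, hB, ← Finset.prod_mul_distrib]
  have hcop : ∀ t ∈ T, ∀ v ∈ T, t ≠ v → IsCoprime (J t) (J v) := by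
    intro t ht v hv htv
    rw [Ideal.isCoprime_span_singleton_iff]
    apply h5 m c (𝓞 K) z hzN t v (hTodd t ht) (hTodd v hv)
    intro hdv
    have h39 := hTlt t ht
    have h40 := hTlt v hv
    have h41 : ((2 : ℤ) ^ (m + 1)) = ((M : ℕ) : ℤ) := by rw [hM]; push_cast; rfl
    rw [h41] at hdv
    obtain ⟨w, hw⟩ := hdv
    have h42 : (0 : ℤ) < M := by exact_mod_cast lt_of_le_of_lt (Nat.zero_le _) h39
    have h43 : w < 1 := by
      by_contra h
      push Not at h
      nlinarith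
    have h44 : -1 < w := by
      by_contra h
      push Not at h
      nlinarith
    have h45 : w = 0 := by omega
    rw [h45, mul_zero] at hw
    apply htv
    omega
  have hkey := h8 (𝓞 K) T A J (fun t => u (M - t) + u t) k
    (by
      intro t _
      rw [pow_add]
      exact mul_dvd_mul (pow_dvd_pow_of_dvd (hIJ _ t) _) (pow_dvd_pow_of_dvd (hIJ _ t) _))
    hcop (by rw [← hspan2, hspan1]) t₀ ht₀T
  -- norms
  have hDdvd : D ∣ (2 ^ (2 ^ c)) ^ (2 ^ m) + 1 := by rw [hFer, hDD']; exact Dvd.intro _ rfl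
  have hD'dvd : D' ∣ (2 ^ (2 ^ c)) ^ (2 ^ m) + 1 := by rw [hFer, hDD']; exact Dvd.intro_left _ rfl
  have hnD : ∀ t, Odd t → Ideal.absNorm (I D t) = D := fun t ht =>
    h7 m (2 ^ (2 ^ c)) t D K z hC ht (by omega) hDdvd
  have hnD' : ∀ t, Odd t → Ideal.absNorm (I D' t) = D' := fun t ht =>
    h7 m (2 ^ (2 ^ c)) t D' K z hC ht hD'pos hD'dvd
  have hnJ : ∀ t, Odd t → Ideal.absNorm (J t) = fer (m + c) := by
    intro t ht
    rw [← hmulD t ht, map_mul, hnD t ht, hnD' t ht, hDD']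
  have hnorm : Ideal.absNorm (I (Dt (M - t₀)) t₀) ^ u (M - t₀) * Ideal.absNorm (I (Ds t₀) t₀) ^ u t₀
      = fer (m + c) ^ k t₀ := by
    have h46 := congrArg Ideal.absNorm hkey
    simp only [hA] at h46
    rw [map_mul, map_pow, map_pow, map_pow, hnJ t₀ ht₀] at h46
    exact h46
  obtain ⟨r1, r2, r3⟩ := h9 (m + c) D D' hDD'.symm hD1 hDlt
  by_cases hp : 0 ≤ e t₀
  · by_cases hq : 0 ≤ e (M - t₀)
    · simp only [hDt, hDs, hp, hq, if_true] at hnorm
      rw [hnD t₀ ht₀, hnD' t₀ ht₀] at hnorm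
      have h47 := r1 _ _ _ hnorm
      simp only [hu] at h47
      omega
    · simp only [hDt, hDs, hp, hq, if_true, if_false] at hnorm
      rw [hnD' t₀ ht₀, ← pow_add] at hnorm
      have h48 := r3 _ _ hnorm
      simp only [hu] at h48
      omega
  · by_cases hq : 0 ≤ e (M - t₀)
    · simp only [hDt, hDs, hp, hq, if_true, if_false] at hnorm
      rw [hnD t₀ ht₀, ← pow_add] at hnorm
      have h48 := r2 _ _ hnorm
      simp only [hu] at h48
      omega
    · simp only [hDt, hDs, hp, hq, if_false] at hnorm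
      rw [hnD t₀ ht₀, hnD' t₀ ht₀, mul_comm] at hnorm
      have h47 := r1 _ _ _ hnorm
      simp only [hu] at h47
      omega

end Pool.Agent.UF
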