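import Pool.Agent.helper76.UF.Spec

/-!
# Fermat numbers and unique factorisation, block S: the final form of the theorem on relations

For composite `F = F_(m+c)`, a proper divisor `D` and `theta = sum e_t sigma_t` in `Z[Gal]` with `sum |e_t| <= r`: if the class
of `(D, a - z)` is killed by `theta` then `e_t = e_(-t)` for all `t`.
-/

namespace Pool.Agent.UF

open Finset Polynomial NumberField nonZeroDivisors

/-- Row CLS (short-medium): classification of `rho`.  PROOF.  Induction on `s` (`Multiset.induction_on`, generalizing `ρ`).  `s = 0`: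
`ρ * b ρ = 1`, `ρ` is a unit, `s1 = s2 = 0`.  `s = t ::ₘ s'`, `α = f_t α'`: the core hypothesis gives `f_t | ρ` or `f_t | b ρ`.
First case `ρ = f_t ρ1`: `f_t b(f_t) ρ1 b(ρ1) = f_t b(f_t) α' b(α')`, cancel (`f_t ≠ 0`), IH for `ρ1`, add `t` to `s1`.
Second case: apply `b`: `b(f_t) | ρ = b(f_t) ρ1` and (as `b b = id`) the same cancellation, add `t` to `s2`. -/
def CLS_stmt : Prop :=
  ∀ (R : Type) [CommRing R] [IsDomain R] (b : R ≃+* R), (∀ a, b (b a) = a) → ∀ (f : ℕ → R), (∀ t, Odd t → f t ≠ 0) →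
    ∀ r : ℕ,
    (∀ s : Multiset ℕ, Multiset.card s ≤ r → (∀ t ∈ s, Odd t) → ∀ ρ : R,
      ρ * b ρ = (s.map f).prod * b (s.map f).prod → ∀ t ∈ s, f t ∣ ρ ∨ f t ∣ b ρ) →
    ∀ s : Multiset ℕ, Multiset.card s ≤ r → (∀ t ∈ s, Odd t) → ∀ ρ : R,
      ρ * b ρ = (s.map f).prod * b (s.map f).prod →
      ∃ s₁ s₂ : Multiset ℕ, s₁ + s₂ = s ∧
        Associated ρ ((s₁.map f).prod * (s₂.map (fun t => b (f t))).prod)

/-- Row CMP (short-medium): `(D, f) (D', f) = (f)` if `D D' = F`.  PROOF.  `f = a - x^t`, `t` odd, `a = 2^(2^c)`, `N = 2^m`, `F = a^N + 1`.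
`F = a^N - (x^t)^N = f g` with `g = sum_(i<N) a^(N-1-i) x^(ti)` (`Commute.mul_geom_sum₂` / `geom_sum₂`), and `g = N a^(N-1)` modulo `f`
(`x^(ti) = a^i` modulo `f`).  `(D, f)(D', f)` is generated by `D D' = F = f g`, `D f`, `D' f`, `f^2`, i.e. it is `f` times the ideal
`(g, D, D', f)`, which contains `N a^(N-1)`, a power of 2, and the odd number `D` (`F` is odd as `a` is even), so it is the unit ideal.
(`Ideal.span_pair_mul_span_pair`; inclusion `<=`: all four generators are multiples of `f`; inclusion `>=`: write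
`1 = u * (N a^(N-1)) + v * D` in ℤ, so `f = u f N a^(N-1) + v f D` and `f N a^(N-1) = f (g + f h)`.) -/
def CMP_stmt : Prop :=
  ∀ (m c : ℕ) (R : Type) [CommRing R] (x : R), x ^ (2 ^ m) = -1 → ∀ t : ℕ, Odd t → ∀ D D' : ℕ,
    D * D' = (2 ^ (2 ^ c)) ^ (2 ^ m) + 1 →
    Ideal.span {(D : R), ff (2 ^ (2 ^ c)) x t} * Ideal.span {(D' : R), ff (2 ^ (2 ^ c)) x t}
      = Ideal.span {ff (2 ^ (2 ^ c)) x t}

/-- Row ANI (short-medium; hypotheses QUK, QUO): the ideal `(D, a - z^t)` has norm `D`.  PROOF.  `t = 1`: the ring map `ℤ → 𝓞 K/(D, a - z)` is surjective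
(QUO) and its kernel is `D ℤ`: if `n0 = D α + (a - z) β`, multiply by `F/D`: `a - z | (F/D) n0` (as `a - z | F`), so `F | (F/D) n0` (QUK, `l = 1`), `D | n0`.  So the
quotient has `D` elements (`Int.quotientSpanEquivZMod`, `Nat.card_zmod`, `Ideal.absNorm_apply`, `Submodule.cardQuot_apply`).  General `t`: the automorphism `s`,
`s z = z^t` (Cyc), maps `(D, a - z)` onto `(D, a - z^t)` (`Ideal.quotientEquiv`). -/
def ANI_stmt : Prop :=
  ∀ (m a t D : ℕ) (K : Type) [Field K] [NumberField K] (z : 𝓞 K), Cyc (2 ^ m) z → Odd t → 0 < D →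
    D ∣ a ^ (2 ^ m) + 1 → Ideal.absNorm (Ideal.span {(D : 𝓞 K), ff a z t}) = D

/-- Row RL2 (short-medium): separate coprime parts.  PROOF.  For `t ∈ s`: `A t` is coprime to `J u`, `u ≠ t` (`A t | (J t)^(n t)`, `IsCoprime.pow_left`,
`IsCoprime.of_isCoprime_of_dvd_left`), so from `A t | ∏ (J u)^(k u)` we get `A t | (J t)^(k t)` (`IsCoprime.dvd_of_dvd_mul_left` after splitting off the factor `t`,
`Finset.mul_prod_erase`).  Conversely `(J t)^(k t)` divides `∏ A u` and is coprime to `A u`, `u ≠ t`, so it divides `A t`.  `dvd_antisymm` (ideals: `Ideal.dvd_iff_le`,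
`le_antisymm`). -/
def RL2_stmt : Prop :=
  ∀ (R : Type) [CommRing R] [IsDomain R] [IsDedekindDomain R] (s : Finset ℕ) (A J : ℕ → Ideal R) (n k : ℕ → ℕ),
    (∀ t ∈ s, A t ∣ (J t) ^ (n t)) → (∀ t ∈ s, ∀ u ∈ s, t ≠ u → IsCoprime (J t) (J u)) →
    (∏ t ∈ s, A t) = ∏ t ∈ s, (J t) ^ (k t) → ∀ t ∈ s, A t = (J t) ^ (k t)

/-- Row RAR (short-medium; hypothesis NPP): the arithmetic at one place.  PROOF.  `D D' = F`, `1 < D < F` (so also `1 < D' < F`), `F = fer n`.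
(i) `D^v D'^u = F^k` implies `u = v`: multiply by `D^u`: `D^v F^u = F^k D^u`.  If `v > u`: `D^(v-u) F^u = F^k`, so `k > u` or `k = u` .. `D^(v-u) = F^(k-u)` (if `k < u`:
`D^(v-u) F^(u-k) = 1`, no); `k - u = 0` gives `D^(v-u) = 1`, no; `k - u >= v - u` gives `D^(v-u) >= F^(v-u)`, no; else NPP.  If `v < u`: `F^(u-k)... `: `F^u = F^k D^(u-v)`, `k <= u`,
`F^(u-k) = D^(u-v)`, the same.
(ii) `D^(w) = F^k` implies `w = 0` (`k = 0`: `D^w = 1`; `0 < k < w`: NPP; `k >= w > 0`: size). -/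
def RAR_stmt : Prop :=
  ∀ n D D' : ℕ, D * D' = fer n → 1 < D → D < fer n →
    (∀ u v k : ℕ, D ^ v * D' ^ u = fer n ^ k → u = v) ∧ (∀ w k : ℕ, D ^ w = fer n ^ k → w = 0) ∧
      (∀ w k : ℕ, D' ^ w = fer n ^ k → w = 0)

/-- Row RE2 (medium-long; hypotheses BAS, BIN, CO2, CLS, CPR, CMP, ANI, RL2, RAR): THE MAIN THEOREM on relations.  PROOF.  `a = 2^(2^c)`, `M = 2^(m+1)`, `F = fer (m+c) = a^(2^m) + 1`, `D D' = F`,
`T = odd t < M`, `f_t = a - z^t`, `I_t(E) = (E, f_t)` for `E | F`.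
0. Case `m = 0`... the bound forces `m >= 1` (indeed `m > 50`).
1. By CMP `I_t(D) I_t(D') = (f_t)`, so in the class group `[I_t(D')] = [I_t(D)]⁻¹`.  Put `u_t = |e_t|`, `D_t = D` if `e_t >= 0`, `D_t = D'` if `e_t < 0`, `D'_t` the other one.
   The hypothesis says `∏ [I_t(D_t)]^(u_t) = 1`: `∏ I_t(D_t)^(u_t) = (δ)` (`ClassGroup.mk0_eq_one_iff`, `map_prod`, `map_pow`).  By CMP
   `(δ) * ∏ I_t(D'_t)^(u_t) = ∏ (f_t)^(u_t) = (α)`, so `δ | α`, `α = δ ε`, and `(ε) = ∏ I_t(D'_t)^(u_t)` (cancel `(δ) ≠ 0`).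
2. `b` from BIN; `b f_t = f_(M-t)` (`b z = z^(M-1)`, i.e. `b(z^t) z^t = 1`, `z^(M-t) z^t = 1`); `b` maps `I_t(E)` to `I_(M-t)(E)`.  `ρ = b δ * ε`, `ρ * b ρ = α * b α`.
   `s` = the multiset with `u_t` copies of `t in T` (`∑ t ∈ T, Multiset.replicate (u t) t`), card `<= r`.  CLS (with CO2; `f_t ≠ 0` because `f_t = 0` gives `a^(2^m) = -1`, as in HFI):
   `ρ` is associated to `∏_(s1) f_t ∏_(s2) f_(M-t)`, so `(ρ) = ∏_(t in T) (f_t)^(k_t)`, `k_t = count t s1 + count (M-t) s2` (reindex `t ↦ M - t` on `T`).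
3. Also `(ρ) = b(δ)(ε) = ∏_(t in T) I_(M-t)(D_t)^(u_t) I_t(D'_t)^(u_t) = ∏_(t in T) A_t`, `A_t = I_t(D_(M-t))^(u_(M-t)) * I_t(D'_t)^(u_t)`, which divides `(f_t)^(u_(M-t) + u_t)`
   (`I_t(E) | (f_t)`).  RL2 (`J_t = (f_t)`, pairwise coprime by CPR: `t, u < M` different, `Ideal.isCoprime_span_singleton_iff`): `A_t = (f_t)^(k_t)`.
4. Norms (ANI with `E = D`, `D'`, and `E = F`: `(F, f_t) = (f_t)` by CMP/`f_t | F`, or take norms in `I_t(D) I_t(D') = (f_t)`: `absNorm (f_t) = D D' = F`):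
   `D_(M-t)^(u_(M-t)) * (D'_t)^(u_t) = F^(k_t)`.
   RAR: both `e_t, e_(M-t) >= 0`: `D^(u_(M-t)) D'^(u_t) = F^k`, so `u_t = u_(M-t)`.  Both `< 0`: `D'^(u_(M-t)) D^(u_t) = F^k`, the same.  `e_t >= 0 > e_(M-t)`:
   `D'^(u_(M-t)) D'^(u_t) = F^k`, so `u_t + u_(M-t) = 0`, contradiction with `e_(M-t) < 0`.  `e_t < 0 <= e_(M-t)`: `D^(u_(M-t) + u_t) = F^k`, contradiction.  So `e_t = e_(M-t)`. -/
def RE2_stmt : Prop :=
  ∀ (m c r : ℕ) (K : Type) [Field K] [NumberField K] [IsCyclotomicExtension {2 ^ (m + 1)} ℚ K]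
    (z : 𝓞 K), IsPrimitiveRoot z (2 ^ (m + 1)) → 1 ≤ r →
    (32 * r) ^ ((2 ^ (2 ^ c) + 1) ^ (2 * r) + r) < 2 ^ m →
    ∀ D : ℕ, D ∣ fer (m + c) → 1 < D → D < fer (m + c) →
    ∀ P : ℕ → (Ideal (𝓞 K))⁰, (∀ t, (P t : Ideal (𝓞 K)) = Ideal.span {(D : 𝓞 K), ff (2 ^ (2 ^ c)) z t}) →
    ∀ e : ℕ → ℤ, ∑ t ∈ (range (2 ^ (m + 1))).filter (fun t => Odd t), |e t| ≤ r →
      ∏ t ∈ (range (2 ^ (m + 1))).filter (fun t => Odd t), (ClassGroup.mk0 (P t)) ^ (e t) = 1 →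
      ∀ t, Odd t → t < 2 ^ (m + 1) → e t = e (2 ^ (m + 1) - t)

end Pool.Agent.UF
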