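import Pool.Agent.helper76.UF.Spec
import Pool.Agent.helper76.UF.SpecB
import Pool.Agent.helper90.UF.BAS
import Pool.Agent.helper70.UF.BIN
import Pool.Agent.helper9.UF.CST
import Pool.Agent.helper82.UF.TBD
import Pool.Agent.helper25.UF.SUP
import Pool.Agent.helper72.UF.PIG
import Pool.Agent.helper78.UF.SPL
import Pool.Agent.helper63.UF.LIN
import Pool.Agent.helper63.UF.POL
import Pool.Agent.helper64.UF.PRM
import Pool.Agent.helper49.UF.CO1
import Pool.Agent.helper50.UF.CO2
import Pool.Agent.helper74.UF.CPR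
import Pool.Agent.helper56.UF.QUK
import Pool.Agent.helper99.UF.QUO
import Pool.Agent.helper25.UF.PDI
import Pool.Agent.helper30.UF.UEO
import Pool.Agent.helper56.UF.UT1
import Pool.Agent.helper75.UF.UNU
import Pool.Agent.helper31.UF.UC1
import Pool.Agent.helper72.UF.UC2
import Pool.Agent.helper40.UF.UF2
import Pool.Agent.helper56.UF.UFI
import Pool.Agent.helper13.UF.IRR
import Pool.Agent.helper99.UF.UFD
import Pool.Agent.helper55.UF.NRM
import Pool.Agent.helper92.UF.NPP
import Pool.Agent.helper72.UF.TW0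
import Pool.Agent.helper74.UF.TWA
import Pool.Agent.helper8.UF.TWB
import Pool.Agent.helper5.UF.TWC
import Pool.Agent.helper9.UF.TWD
import Pool.Agent.helper5.UF.TOW
import Pool.Agent.helper72.UF.CLS
import Pool.Agent.helper83.UF.CMP
import Pool.Agent.helper29.UF.ANI
import Pool.Agent.helper89.UF.RL2
import Pool.Agent.helper45.UF.RAR
import Pool.Agent.helper76.UF.RE2

set_option autoImplicit false

namespace Pool.Agent.UF

theorem main : IRR_stmt ∧ UFD_stmt ∧ TOW_stmt ∧ NRM_stmt ∧ RE2_stmt := by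
  have sup := SUP CST TBD
  have pol := POL LIN
  have co1 := CO1 sup PIG SPL pol
  have co2 := CO2 BAS PRM co1
  have uf2 := UF2 CST UNU UC1 UC2
  have u := UFI (UEO CST) UT1 uf2
  have irr := IRR BAS BIN CPR QUK QUO u
  have ufd := UFD BAS QUK irr
  have nrm := NRM BAS QUK irr
  have twc := TWC TWB
  have tow := TOW BAS BIN CPR QUK PDI u TW0 (TWA CST) twc TWD
  have re2 := RE2 BAS BIN co2 CLS CPR CMP (ANI QUK QUO) RL2 (RAR NPP)
  exact ⟨irr, ufd, tow, nrm, re2⟩

end Pool.Agent.UF
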