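import Mathlib

/-!
# Fermat numbers and unique factorisation (MP_37e5fa_nt), project UF, rows uf:*

Notation: `N = 2^m`, `F_n = 2^(2^n) + 1`, `z` a primitive `2^(m+1)`-th root of unity in the ring of integers of
`Q(zeta_(2^(m+1)))`, so `z^N = -1` and `1, z, ..., z^(N-1)` is a basis.  `f_t = a - z^t`, `t` odd, `a = 2^(2^c)`; the
ideal `(f_t)` has norm `a^N + 1 = F_(m+c)`.  `b` is complex conjugation.

The idea.  If `delta * eps = alpha` put `rho = b(delta) * eps`; then `rho * b(rho) = alpha * b(alpha)`, so the coefficient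
vectors of `rho` and `alpha` have the same length, which is tiny (`5` for `alpha = 2 - z`).

Rows only use other rows as hypotheses.  Row `XX` = theorem `XX : XX_stmt` in the file `UF/XX.lean`, namespace
`Pool.Agent.UF`; auxiliary lemmas are prefixed `XX_`.
-/

namespace Pool.Agent.UF

open Finset Polynomial NumberField

/-- The Fermat number. -/
def fer (n : ℕ) : ℕ := 2 ^ (2 ^ n) + 1

/-- `x^N = -1` and the powers `x^i`, `i < N`, are linearly independent over the integers. -/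
def Bas (N : ℕ) {R : Type} [CommRing R] (x : R) : Prop :=
  x ^ N = -1 ∧ ∀ c : ℕ → ℤ, (∑ i ∈ range N, (c i : R) * x ^ i) = 0 → ∀ i, i < N → c i = 0

/-- `R` is the ring `Z[x]`, `x^N = -1`, and all maps `x -> x^t`, `t` odd, extend to automorphisms. -/
def Cyc (N : ℕ) {R : Type} [CommRing R] (x : R) : Prop :=
  Bas N x ∧ (∀ a : R, ∃ c : ℕ → ℤ, a = ∑ i ∈ range N, (c i : R) * x ^ i) ∧
    ∀ t : ℕ, Odd t → ∃ s : R ≃+* R, s x = x ^ t

/-- `b` is the complex conjugation: `b x = 1/x`, `b b = id`. -/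
def IsBar {R : Type} [CommRing R] (x : R) (b : R ≃+* R) : Prop :=
  b x * x = 1 ∧ ∀ a, b (b a) = a

/-- The element `a - x^t`. -/
def ff {R : Type} [CommRing R] (a : ℕ) (x : R) (t : ℕ) : R := (a : R) - x ^ t

/-! ## Block B: basis, conjugation, lengths -/

/-- Row BAS (medium).  PROOF.  `(p := 2) (k := m+1)`: use `IsPrimitiveRoot.integralPowerBasisOfPrimePow` (general form
`IsPrimitiveRoot.integralPowerBasis`) for `zeta := (z : K)` (primitive root in `K`: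
`IsPrimitiveRoot.map_of_injective` / `coe`); its generator is `z`, its dimension `phi (2^(m+1)) = 2^m`
(`Nat.totient_prime_pow_succ`).  `z^(2^m)` is a square root of `1` in a domain, `<> 1` by primitivity: `= -1`.
Independence and spanning: `PowerBasis.basis`, `Basis.linearIndependent`, `Basis.sum_repr` / `PowerBasis.exists_eq_aeval'`
(integer coefficients, sums over `Fin (2^m)` rewritten as sums over `range (2^m)` with `Finset.sum_range`).
Automorphisms: for `t` odd `t` is coprime to `2^(m+1)`; `IsCyclotomicExtension.autEquivPow K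
(cyclotomic.irreducible_rat ..)` gives `g : K ≃ₐ[Q] K` with `g z = z^t` (`IsCyclotomicExtension.fromZetaAut`,
`fromZetaAut_spec` : an automorphism sending `zeta` to a given primitive root; or `(autEquivPow ..).symm` with
`autToPow_spec`), restricted to integers by `NumberField.RingOfIntegers.mapRingEquiv` (or `mapAlgEquiv`). -/
def BAS_stmt : Prop :=
  ∀ (m : ℕ) (K : Type) [Field K] [NumberField K] [IsCyclotomicExtension {2 ^ (m + 1)} ℚ K]
    (z : 𝓞 K), IsPrimitiveRoot z (2 ^ (m + 1)) → Cyc (2 ^ m) z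

/-- Row BIN (short-medium): the conjugation exists and commutes with every `s` that sends `x` to a power of `x`.
PROOF.  `b` := the automorphism with `b x = x^(2N-1)` (`2N - 1` odd).  `b x * x = x^(2N) = (x^N)^2 = 1`.
`b (b x) = x^((2N-1)^2) = x` since `(2N-1)^2 = 2N(2N-2) + 1` and `x^(2N) = 1`; two ring endomorphisms which agree at `x` agree at
every `sum c_i x^i`.  The same for `s (b x) = x^(t(2N-1)) = b (s x)`. -/
def BIN_stmt : Prop :=
  ∀ (N : ℕ) (R : Type) [CommRing R] (x : R), 1 ≤ N → Cyc N x →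
    ∃ b : R ≃+* R, IsBar x b ∧ ∀ (t : ℕ) (s : R ≃+* R), s x = x ^ t → ∀ a, s (b a) = b (s a)

/-- Row CST (short-medium): the constant coefficient of `a * b(a)` is the sum of the squares of the coefficients.
PROOF.  `b x = x^(2N-1)` (multiply `b x * x = 1` by `x^(2N-1)`, `x^(2N) = 1`).  For `i, j < N`: `x^i * b(x)^j` is `1` if `i = j`,
`x^(i-j)` if `i > j`, and `-x^(N+i-j)` if `i < j` (because `x^(N+i-j) * x^j = x^N * x^i = - x^i`).  So
`a * b a = sum_i c_i^2 + sum_(0<k<N) E_k x^k` with integers `E_k = sum_(i-j=k) c_i c_j - sum_(i-j = k-N) c_i c_j`; by independence (`Bas`,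
applied to the difference) `d 0 = sum c_i^2`. -/
def CST_stmt : Prop :=
  ∀ (N : ℕ) (R : Type) [CommRing R] (x : R) (b : R ≃+* R), 1 ≤ N → Bas N x → IsBar x b →
    ∀ c d : ℕ → ℤ,
      (∑ i ∈ range N, (c i : R) * x ^ i) * b (∑ i ∈ range N, (c i : R) * x ^ i)
        = ∑ i ∈ range N, (d i : R) * x ^ i →
      d 0 = ∑ i ∈ range N, (c i) ^ 2

/-- Row TBD (short-medium): the product of `card s` elements `a - x^t` has squared length at most `(a+1)^(2 card s)`.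
PROOF.  Induction on `s` (`Multiset.induction_on`).  `s = 0`: `1 = sum d_i x^i` gives `d 0 = 1`, other `d i = 0` (Bas).
Step: the product for `s` is `p = sum c_i x^i` (spanning), `(a - x^t) p = a p - x^t p`; multiplication by `x` maps the coefficient
vector `(c_0, ..., c_(N-1))` to `(-c_(N-1), c_0, ..., c_(N-2))`, so `x^t p` has the same sum of squares `T` as `p`; the vector of
`(a - x^t) p` is `a c - c'` with `sum c^2 = sum c'^2 = T`, hence
`sum (a c - c')^2 = a^2 T - 2 a sum c c' + T <= a^2 T + a (T + T) + T = (a+1)^2 T` (`-2 u v <= u^2 + v^2`).  Uniqueness of the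
coefficients: `Bas`. -/
def TBD_stmt : Prop :=
  ∀ (N : ℕ) (R : Type) [CommRing R] (x : R), 1 ≤ N → Cyc N x → ∀ (a : ℕ) (s : Multiset ℕ) (c : ℕ → ℤ),
    (s.map (ff a x)).prod = ∑ i ∈ range N, (c i : R) * x ^ i →
    ∑ i ∈ range N, (c i) ^ 2 ≤ ((a : ℤ) + 1) ^ (2 * Multiset.card s)

/-- Row SUP (short; hypotheses CST, TBD).  PROOF.  Write `rho = sum c_i x^i`, `P = prod (a - x^t) = sum e_i x^i` and the common value
`rho * b rho = P * b P = sum d_i x^i` (spanning).  CST twice: `sum c_i^2 = d 0 = sum e_i^2 <= (a+1)^(2 card s)` by TBD, and the number of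
`i < N` with `c i <> 0` is at most `sum c_i^2`. -/
def SUP_stmt : Prop :=
  ∀ (N : ℕ) (R : Type) [CommRing R] (x : R) (b : R ≃+* R), 1 ≤ N → Cyc N x → IsBar x b →
    ∀ (a : ℕ) (s : Multiset ℕ) (ρ : R),
      ρ * b ρ = (s.map (ff a x)).prod * b (s.map (ff a x)).prod →
      ∃ c : ℕ → ℤ, ρ = ∑ i ∈ range N, (c i : R) * x ^ i ∧
        ((range N).filter (fun i => c i ≠ 0)).card ≤ (a + 1) ^ (2 * Multiset.card s)

/-! ## Block H: products of few conjugates factor uniquely -/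

/-- Row PIG (short-medium): Dirichlet's theorem.  PROOF.  For `t` in `{0, ..., Q^M}` map `t` to the function
`i ↦ floor (Q * ((t * v i) mod n) / n)` in `Fin M → Fin Q` (`0 <= (t v_i) mod n < n`).  There are `Q^M + 1` values of `t`, so two,
`t1 < t2`, have the same image (`Finset.exists_ne_map_eq_of_card_lt_of_maps_to`).  Take `t = t2 - t1`,
`b_i = (t2 v_i mod n) - (t1 v_i mod n)`: `n | t v_i - b_i` and `Q |b_i| <= n` (both numbers `Q * (.. mod n)` lie in the same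
interval `[j n, (j+1) n)`). -/
def PIG_stmt : Prop :=
  ∀ (M Q n : ℕ) (v : Fin M → ℤ), 1 ≤ Q → 1 ≤ n →
    ∃ t : ℕ, 1 ≤ t ∧ t ≤ Q ^ M ∧ ∀ i, ∃ b : ℤ, (n : ℤ) ∣ (t : ℤ) * v i - b ∧ |b| * Q ≤ n

/-- Row SPL (short).  PROOF.  `2 t0 = 2^g t'` with `t'` odd (`Nat.exists_eq_two_pow_mul_odd`), `g >= 1`, and
`2^g <= 2 t0 < 2^(m+1)` gives `g <= m`.  If `2^(m+1) | t0 v - b` then `2^(m+1) | 2 (t0 v - b) = 2^g t' v - 2 b`; so `2^g | 2 b`, say
`2 b = 2^g r`, and `2^(m+1) | 2^g (t' v - r)`, i.e. `2^(m+1-g) | t' v - r`. -/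
def SPL_stmt : Prop :=
  ∀ m t₀ : ℕ, 1 ≤ t₀ → t₀ < 2 ^ m →
    ∃ g t' : ℕ, 1 ≤ g ∧ g ≤ m ∧ Odd t' ∧ 2 * t₀ = 2 ^ g * t' ∧
      ∀ v b : ℤ, (2 : ℤ) ^ (m + 1) ∣ (t₀ : ℤ) * v - b →
        ∃ r j : ℤ, 2 * b = 2 ^ g * r ∧ (t' : ℤ) * v = r + 2 ^ (m + 1 - g) * j

/-- Row LIN (medium): `1, x, ..., x^(q-1)` are linearly independent over `Z[x^q]`, `q = 2^(m+1-g)`.
PROOF.  `w = x^q` satisfies `w^(2^(g-1)) = x^(2^m) = -1` (as `q * 2^(g-1) = 2^m`), so every element of `Z[w]` is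
`sum_(j < 2^(g-1)) a_j w^j` (induction on adjoin: the set of such sums is a subring: `w * w^(2^(g-1) - 1) = -1`; or
`Algebra.adjoin_singleton_eq_range_aeval` and division of the integer polynomial by the monic `X^(2^(g-1)) + 1`,
`Polynomial.modByMonic`).  If `H = sum_(k<q) h_k X^k`, `h_k = sum_j a_(k,j) w^j`, then
`0 = H(x) = sum_(k<q, j<2^(g-1)) a_(k,j) x^(k+qj)`; `(k, j) ↦ k + q j` is a bijection onto `{0, ..., 2^m - 1}`, hence all
`a_(k,j) = 0` by `Bas`. -/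
def LIN_stmt : Prop :=
  ∀ (m g : ℕ) (R : Type) [CommRing R] (x : R), 1 ≤ g → g ≤ m → Bas (2 ^ m) x →
    ∀ H : R[X], (∀ k, H.coeff k ∈ Algebra.adjoin ℤ {x ^ (2 ^ (m + 1 - g))}) →
      H.natDegree < 2 ^ (m + 1 - g) → H.eval x = 0 → H = 0

/-- Row POL (medium; hypothesis LIN).  PROOF.  `H` := left side minus right side of the conclusion.  All coefficients lie in
`Z[x^q]` (`C (n * x^(q k)) * X^l` has coefficients in the subring; polynomials with coefficients in a subring are closed under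
sum and product: e.g. they are the range of `Polynomial.map (Subalgebra.val ..)` / `Polynomial.lifts`, or use
`Polynomial.coeff_mul`).  `natDegree H <= 4 L < q`: the two sums have degree `<= 2 L`, the product on the right has degree
`<= k + sum 2 p.2.2 <= 4 L`.  `H(x) = 0` is the hypothesis.  LIN. -/
def POL_stmt : Prop :=
  ∀ (m g a : ℕ) (R : Type) [CommRing R] (x : R), 1 ≤ g → g ≤ m → Bas (2 ^ m) x →
    ∀ q L k : ℕ, q = 2 ^ (m + 1 - g) → 4 * L < q →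
    ∀ (S : Finset ℕ) (c : ℕ → ℤ) (A A' B B' : ℕ → ℕ), (∀ s ∈ S, B s ≤ 2 * L ∧ B' s ≤ 2 * L) →
    ∀ T : Multiset (ℕ × ℕ × ℕ), k + 2 * (T.map (fun p => p.2.2)).sum ≤ 4 * L →
    (∑ s ∈ S, (c s : R) * x ^ (q * A s) * x ^ (B s)) * (∑ s ∈ S, (c s : R) * x ^ (q * A' s) * x ^ (B' s))
      = x ^ k * (T.map (fun p => ((a : R) - x ^ (q * p.1) * x ^ p.2.2) *
          ((a : R) * x ^ p.2.2 - x ^ (q * p.2.1)))).prod →
    (∑ s ∈ S, C ((c s : R) * x ^ (q * A s)) * X ^ (B s)) *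
        (∑ s ∈ S, C ((c s : R) * x ^ (q * A' s)) * X ^ (B' s))
      = X ^ k * (T.map (fun p => (C (a : R) - C (x ^ (q * p.1)) * X ^ p.2.2) *
          (C (a : R) * X ^ p.2.2 - C (x ^ (q * p.2.1))))).prod

/-- Row PRM (medium).  PROOF.  Let `G = X^e - C (2^(2^c) u)`, monic of degree `e >= 1`.  Over `K`:
`X_pow_sub_C_irreducible_of_odd` (FieldTheory/KummerExtension): irreducible provided `2^(2^c) u` is not a `p`-th power in `K` for the
primes `p | e` (odd).  If `y^p = 2^(2^c) u`, take `Algebra.norm ℚ`: `Norm(y)^p = 2^(2^c 2^m) Norm(u)`, `Norm(u)^k = 1` so `Norm(u) = ±1`;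
2-adic valuation (`padicValRat`): `p | 2^(c') ` with `2^(c') = 2^c * 2^m`, `p` odd prime: contradiction.  Then `G` is prime in
`(𝓞 K)[X]`: if `G | P Q` then in `K[X]` the image of `G` (irreducible, so prime) divides the image of `P` or `Q`, and divisibility
by a monic polynomial descends (`Polynomial.map_dvd_map` with `(algebraMap (𝓞 K) K)` injective and `G` monic).  `G <> 0`, not a unit:
degree `e >= 1`. -/
def PRM_stmt : Prop :=
  ∀ (m : ℕ) (K : Type) [Field K] [NumberField K], Module.finrank ℚ K = 2 ^ m →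
    ∀ (c e : ℕ) (u : 𝓞 K), Odd e → (∃ k, 0 < k ∧ u ^ k = 1) →
      Prime ((X : (𝓞 K)[X]) ^ e - C ((((2 ^ (2 ^ c) : ℕ)) : 𝓞 K) * u))

/-- Row CO1 (medium-long; hypotheses SUP, PIG, SPL, POL).  PROOF.  Let `N = 2^m`, `a = 2^(2^c)` (any `a` works), `P = prod_(t in s) (a - x^t)`.
1. SUP: `rho = sum_(i in S) c_i x^i`, `S` = the `i < N` with `c_i <> 0`, `card S <= (a+1)^(2 card s) <= (a+1)^(2r)`.
2. PIG with `Q = 32 r`, `n = 2^(m+1)` for the `M = card S + card s` numbers `i in S` and `t in s` (e.g. `v` enumerates the list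
   `S.toList ++ s.toList`): `t0 <= (32r)^M <= (32r)^((a+1)^(2r)+r) < 2^m`.  SPL: `2 t0 = 2^g t'`, put `q = 2^(m+1-g)` (even),
   and for each of the numbers `v`: `b`, `r_v`, `j_v` with `2 b = 2^g r_v`, `t' v = r_v + q j_v`, `32 r |b| <= 2^(m+1)`, so
   `16 r |r_v| <= q`.  Put `L = q / 16`: `|r_i| <= L` for `i in S`, `sum_(t in s) |r_t| <= L` (each is `<= q/(16 r)`, at most `r` terms),
   `4 L < q`; `r_t` is odd for `t in s` (`t' t` odd, `q` even).
3. `s` := automorphism `sigma` with `sigma x = x^(t')` (Cyc).  As `(x^q)^(2^g) = x^(2N) = 1`, `x^(q j)` makes sense for `j` mod `2^g`: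
   `A_i` = natural number congruent to `j_i` mod `2^g`, `A'_i` congruent to `-j_i`, `B_i = r_i + L`, `B'_i = L - r_i` (both in `[0, 2L]`).
   `x^L sigma(rho) = sum c_i x^(q A_i) x^(B_i)`, and, as `b x = 1/x`, `x^L sigma(b rho) = x^L b (sigma rho) = sum c_i x^(q A'_i) x^(B'_i)`.
4. For `t in s` let `e = |r_t|`, and `(g1, g2)` congruent to `(j_t, -j_t)` if `r_t > 0`, to `(-j_t, j_t)` if `r_t < 0`.  Then
   `(a - x^(q g1) x^e)` is `sigma(f_t)` (resp. `sigma(b f_t)`) and `a x^e - x^(q g2) = x^e sigma(b f_t)` (resp. `x^e sigma(f_t)`).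
   Multiply over `t`: with `k = 2 L - sum e`, `x^(2L) sigma(rho) sigma(b rho) = x^(2L) sigma(P) sigma(b P) = x^k prod (a - x^(q g1) x^e)(a x^e - x^(q g2))`.
   (`k + 2 sum e = 2L + sum e <= 4 L`.)
5. POL: the polynomial identity.  `P := sum C(c_i x^(q A_i)) X^(B_i)`, `Q` the other sum.  For `t in s` the factor
   `C a - C(x^(q g1)) X^e = - C(x^(q g1)) (X^e - C (a u))` with `u = x^(q g1')`, `g1'` congruent to `-g1` (`u^(2N) = 1`), so
   `X^e - C (a u)` divides `P Q`; and `x^e - a u = -u (a - x^(q g1) x^e)` is associated to `sigma (f_t)` or `sigma (b f_t)`. -/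
def CO1_stmt : Prop :=
  ∀ (m a r : ℕ) (R : Type) [CommRing R] [IsDomain R] (x : R) (b : R ≃+* R), Cyc (2 ^ m) x → IsBar x b →
    1 ≤ r → (32 * r) ^ ((a + 1) ^ (2 * r) + r) < 2 ^ m →
    ∀ s : Multiset ℕ, Multiset.card s ≤ r → (∀ t ∈ s, Odd t) → ∀ ρ : R,
      ρ * b ρ = (s.map (ff a x)).prod * b (s.map (ff a x)).prod →
      ∃ (σ : R ≃+* R) (L : ℕ) (P Q : R[X]), P.eval x = x ^ L * σ ρ ∧ Q.eval x = x ^ L * σ (b ρ) ∧
        ∀ t ∈ s, ∃ (e : ℕ) (u : R), Odd e ∧ u ^ (2 ^ (m + 1)) = 1 ∧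
          ((X : R[X]) ^ e - C ((a : R) * u)) ∣ P * Q ∧
          (Associated (x ^ e - (a : R) * u) (σ (ff a x t)) ∨
            Associated (x ^ e - (a : R) * u) (σ (b (ff a x t))))

/-- Row CO2 (short-medium; hypotheses BAS, PRM, CO1): the core lemma.  PROOF.  `a = 2^(2^c)`, BAS, CO1.  `finrank ℚ K = 2^m`
(`IsCyclotomicExtension.finrank`, totient).  For `t in s`: `X^e - C (a u)` is prime (PRM, `k = 2^(m+1)`), so divides `P` or `Q`; evaluate at `z`:
`z^e - a u` divides `z^L σ ρ` or `z^L σ (b ρ)`, `z` is a unit.  So `σ(f_t)` or `σ(b f_t)` divides `σ ρ` or `σ (b ρ)`; apply `σ⁻¹`, and `b` if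
necessary (`b b = id`). -/
def CO2_stmt : Prop :=
  ∀ (m c r : ℕ) (K : Type) [Field K] [NumberField K] [IsCyclotomicExtension {2 ^ (m + 1)} ℚ K]
    (z : 𝓞 K), IsPrimitiveRoot z (2 ^ (m + 1)) → 1 ≤ r →
    (32 * r) ^ ((2 ^ (2 ^ c) + 1) ^ (2 * r) + r) < 2 ^ m →
    ∀ b : 𝓞 K ≃+* 𝓞 K, IsBar z b → ∀ s : Multiset ℕ, Multiset.card s ≤ r → (∀ t ∈ s, Odd t) → ∀ ρ : 𝓞 K,
      ρ * b ρ = (s.map (ff (2 ^ (2 ^ c)) z)).prod * b (s.map (ff (2 ^ (2 ^ c)) z)).prod →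
      ∀ t ∈ s, ff (2 ^ (2 ^ c)) z t ∣ ρ ∨ ff (2 ^ (2 ^ c)) z t ∣ b ρ

/-- Row IND (medium): the induction.  PROOF.  Induction on `card s` (strong, or on `s` with `Multiset.induction_on` generalizing `δ`).  `s = 0`:
`δ | 1` is a unit, `s' = 0`.  `s = t ::ₘ s1`, `α = f_t α1`, `δ ε = α`.  Put `ρ = b δ * ε`: `ρ * b ρ = b δ * ε * δ * b ε = α * b α`.  So
`f_t | b δ * ε` or `f_t | b ρ = δ * b ε`.  `b α = prod b (f_u)` is coprime to `f_t` (`IsCoprime.prod_right`, hypothesis).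
(i) `f_t | b δ ε`: `b δ | b α` so `f_t` is coprime to `b δ` (`IsCoprime.of_isCoprime_of_dvd_right`), `f_t | ε = f_t ε1`, cancel: `δ ε1 = α1`,
IH: `δ` is associated to a subproduct of `s1`.  (ii) `f_t | δ b ε`: `b ε | b α`, so `f_t | δ = f_t δ1`, `δ1 ε = α1`, IH for `δ1`,
`s' = t ::ₘ s1'`. -/
def IND_stmt : Prop :=
  ∀ (R : Type) [CommRing R] [IsDomain R] (b : R ≃+* R), (∀ a, b (b a) = a) → ∀ (f : ℕ → R), (∀ t, Odd t → f t ≠ 0) →
    ∀ r : ℕ,
    (∀ s : Multiset ℕ, Multiset.card s ≤ r → (∀ t ∈ s, Odd t) → ∀ ρ : R,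
      ρ * b ρ = (s.map f).prod * b (s.map f).prod → ∀ t ∈ s, f t ∣ ρ ∨ f t ∣ b ρ) →
    ∀ s : Multiset ℕ, Multiset.card s ≤ r → (∀ t ∈ s, Odd t) →
      (∀ t ∈ s, ∀ u ∈ s, IsCoprime (f t) (b (f u))) →
      ∀ δ : R, δ ∣ (s.map f).prod → ∃ s' ≤ s, Associated δ (s'.map f).prod

/-- Row CPR (short-medium): `a - x^t` and `a - x^s` are coprime.  PROOF.  `a = 2^(2^c)`, `N = 2^m`.  The ideal generated by the two contains
`a^s - x^(ts)` (divisible by `a - x^t`: `sub_dvd_pow_sub_pow`) and `a^t - x^(ts)` (divisible by `a - x^s`), hence the integer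
`a^s - a^t`, and `a^N - x^(tN) = a^N + 1` (`x^(tN) = (-1)^t = -1`).  These two integers are coprime: `a^s - a^t = ± a^(min) (a^u - 1)`,
`u = |s - t| > 0` even, `a` is a power of 2 and `a^N + 1` odd.  If a prime `p` divides `a^N + 1` and `a^u - 1`: `p` divides
`a^(2N) - 1` and `a^u - 1`, so `a^d - 1` with `d = gcd(u, 2N)` (`Nat.pow_sub_one_gcd_pow_sub_one` or orders); `d` is a power of 2 dividing `2N`, `d <> 2N` since
`2N` does not divide `t - s`, so `d | N`, `p | a^N - 1`, `p | 2`, impossible (`a^N + 1` odd).  (Alternative: `orderOf (a : ZMod p)`: `a^N = -1 <> 1` and `a^(2N) = 1`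
give order exactly `2N` up to the factor: order divides `2N = 2^(m+1)` and not `N`, so the order is `2^(m+1)`, which must divide `u`.)  So
`IsCoprime` of the two integers in ℤ, map to `R`. -/
def CPR_stmt : Prop :=
  ∀ (m c : ℕ) (R : Type) [CommRing R] (x : R), x ^ (2 ^ m) = -1 → ∀ t s : ℕ, Odd t → Odd s →
    ¬ ((2 : ℤ) ^ (m + 1) ∣ (t : ℤ) - s) → IsCoprime (ff (2 ^ (2 ^ c)) x t) (ff (2 ^ (2 ^ c)) x s)

/-- Row HFI (short-medium; hypotheses BAS, BIN, CO2, IND, CPR): THEOREM H.  PROOF.  BAS, BIN give `b`; `f = ff a z`.  `f t <> 0` for `t` odd (else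
`z^t = a`, `z^(t 2^m) = -1 = a^(2^m)`, impossible in characteristic 0).  Core = CO2.  Coprimality of `f t` and `b (f u)`: `b z = z^(2^(m+1)-1)`,
`b (f u) = ff a z ((2^(m+1)-1) u)`, and `t - (2^(m+1)-1) u = (t + u) - 2^(m+1) u` is not divisible by `2^(m+1)`.  IND. -/
def H_stmt : Prop :=
  ∀ (m c r : ℕ) (K : Type) [Field K] [NumberField K] [IsCyclotomicExtension {2 ^ (m + 1)} ℚ K]
    (z : 𝓞 K), IsPrimitiveRoot z (2 ^ (m + 1)) → 1 ≤ r →
    (32 * r) ^ ((2 ^ (2 ^ c) + 1) ^ (2 * r) + r) < 2 ^ m →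
    ∀ s : Multiset ℕ, Multiset.card s ≤ r → (∀ t ∈ s, Odd t) →
      (∀ t ∈ s, ∀ u ∈ s, ¬ 2 ^ (m + 1) ∣ t + u) →
      ∀ δ : 𝓞 K, δ ∣ (s.map (ff (2 ^ (2 ^ c)) z)).prod →
        ∃ s' ≤ s, Associated δ (s'.map (ff (2 ^ (2 ^ c)) z)).prod

/-! ## Block Q: the quotient by `a - x` -/

/-- Row QUK (short-medium): an integer divisible by `a - y^l` in `Z[y]`, `y^(lN) = -1`, is divisible by `a^N + 1`.
PROOF.  `(a - y^l) β = n0`, `β = sum_(i < lN) β_i y^i`.  Compare coefficients (`Bas`): the coefficient of `y^(lj)` is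
`a β_(lj) - β_(l(j-1)) = 0` for `1 <= j < N`, and `a β_0 + β_(l(N-1)) = n0` for `j = 0` (`y^(lN) = -1`).  So
`β_0 = a^(N-1) β_(l(N-1))` and `n0 = (a^N + 1) β_(l(N-1))`.  (`N = 1`: `y^l = -1`, `(a+1) β = n0` directly.)  Conversely
`a^N + 1 = a^N - (y^l)^N` is divisible by `a - y^l`. -/
def QUK_stmt : Prop :=
  ∀ (N l a : ℕ) (R : Type) [CommRing R] (y : R), 1 ≤ N → 1 ≤ l → Cyc (l * N) y →
    (∀ n₀ : ℤ, ff a y l ∣ (n₀ : R) → ((a ^ N + 1 : ℕ) : ℤ) ∣ n₀) ∧ ff a y l ∣ ((a ^ N + 1 : ℕ) : R)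

/-- Row QUO (short): `Z[x]/(a - x)` is generated by the integers.  PROOF.  `y = sum c_i x^i`, `n0 = sum c_i a^i`; `a - x` divides
`x^i - a^i` (`sub_dvd_pow_sub_pow`). -/
def QUO_stmt : Prop :=
  ∀ (N a : ℕ) (R : Type) [CommRing R] (x : R), Cyc N x → ∀ y : R, ∃ n₀ : ℤ, ff a x 1 ∣ y - (n₀ : R)

/-- Row PDI (short).  PROOF.  `D D' = F`, `1 < D' < F`... If the ideal is `⊤`: `1 = D α + f β`, times `D'`: `D' = F α + f D' β` is divisible by `f`,
so `F | D'`, `0 < D' < F`, contradiction.  If it is `(f)`: `f | D`, `F | D`, contradiction. -/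
def PDI_stmt : Prop :=
  ∀ (R : Type) [CommRing R] (f : R) (F D : ℕ), (∀ n₀ : ℤ, f ∣ (n₀ : R) → (F : ℤ) ∣ n₀) → f ∣ (F : R) →
    D ∣ F → 1 < D → D < F →
    Ideal.span {(D : R), f} ≠ ⊤ ∧ Ideal.span {(D : R), f} ≠ Ideal.span {f}

/-! ## Block U: `rho * b rho = 5 - 2 (x + 1/x)` has only the trivial solutions.  `[k] = x^k + b(x)^k`. -/

/-- Row UEO (medium).  PROOF.  `N = 2^m` even.  `S = A + B`, `A` the even, `B` the odd exponents.  For `i, j < N`: `x^i b(x)^j` is `± x^k` with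
`k < N`, `k` congruent to `i - j` mod 2 (see CST).  So `A bA + B bB - 5` is a combination of `x^k`, `k` even, and
`A bB + bA B + 2 (x + b x)` of `x^k`, `k` odd (`b x = - x^(N-1)`, `N - 1` odd); their sum is `0`, so by `Bas` both are `0`.
`sum c_i^2 = 5`: CST's argument (constant coefficient `sum c_i^2` of the left side; the right side is
`5 - 2 x + 2 x^(N-1)`; the hypothesis CST may be used) . -/
def UEO_stmt : Prop :=
  ∀ (m : ℕ) (R : Type) [CommRing R] (x : R) (b : R ≃+* R), 2 ≤ m → Bas (2 ^ m) x → IsBar x b →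
    ∀ c : ℕ → ℤ,
      (∑ i ∈ range (2 ^ m), (c i : R) * x ^ i) * b (∑ i ∈ range (2 ^ m), (c i : R) * x ^ i)
        = 5 - 2 * (x + b x) →
      ∀ A B : R, A = ∑ i ∈ (range (2 ^ m)).filter (fun i => Even i), (c i : R) * x ^ i →
        B = ∑ i ∈ (range (2 ^ m)).filter (fun i => ¬ Even i), (c i : R) * x ^ i →
        A * b A + B * b B = 5 ∧ A * b B + b A * B = -(2 * (x + b x)) ∧ ∑ i ∈ range (2 ^ m), (c i) ^ 2 = 5

/-- Row UT1 (short): the case `A = x^j`.  PROOF.  `B1 = b A * B`; `A * b A = 1`, so `B = A B1`, `B * b B = 4 = B1 * b B1` and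
`B1 + b B1 = -2 (x + b x)`.  `(B1 + 2 x)(B1 + 2 b x) = B1^2 + 2 (x + b x) B1 + 4 = B1^2 - (B1 + b B1) B1 + B1 * b B1 = 0`.  If
`B1 = -2x`: `A + B = x^j (1 - 2x) = - x^(j+1) (2 - b x) = x^(j+1+N) (2 - b x)`.  If `B1 = -2 b x`:
`A + B = x^j (1 - 2 b x) = - x^j (b x) (2 - x) = x^(j+N+2N-1) (2 - x)` (`b x = x^(2N-1)`, `-1 = x^N`). -/
def UT1_stmt : Prop :=
  ∀ (N : ℕ) (R : Type) [CommRing R] [IsDomain R] (x : R) (b : R ≃+* R), 1 ≤ N → x ^ N = -1 → IsBar x b →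
    ∀ (A B : R) (j : ℕ), A = x ^ j → A * b A + B * b B = 5 → A * b B + b A * B = -(2 * (x + b x)) →
      ∃ i : ℕ, A + B = x ^ i * (2 - x) ∨ A + B = x ^ i * (2 - b x)

/-- Row UNU (short-medium): the element `nu = b(A) B + (x + b x)`.  PROOF.  `b A = b(x)^j (1 + b(x)^e)` is a combination of `b(x)^i = ± x^(i')` with
`i'` even, so `C = b A * B` and `nu = C + x + b x` have only odd exponents (`b x = - x^(N-1)`).  `b nu = b C + x + b x`,
`C + b C = -2(x + b x)` gives `b nu = - nu`.  `A * b A = (1 + x^e)(1 + b(x)^e) = 2 + [e]`, `B * b B = 5 - A b A = 3 - [e]`, so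
`C * b C = (2 + [e])(3 - [e]) = 6 + [e] - [e]^2`, `[e]^2 = [2e] + 2`.  `C b C = (nu - [1])(- nu - [1]) = [1]^2 - nu^2 = [1]^2 + nu b nu`,
`[1]^2 = [2] + 2`.  Hence `nu * b nu = 2 + [e] - [2e] - [2]`. -/
def UNU_stmt : Prop :=
  ∀ (m : ℕ) (R : Type) [CommRing R] (x : R) (b : R ≃+* R), 2 ≤ m → Bas (2 ^ m) x → IsBar x b →
    ∀ (j e : ℕ) (c : ℕ → ℤ) (A B : R), Even j → Even e → A = x ^ j * (1 + x ^ e) →
      B = ∑ i ∈ (range (2 ^ m)).filter (fun i => ¬ Even i), (c i : R) * x ^ i →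
      A * b A + B * b B = 5 → A * b B + b A * B = -(2 * (x + b x)) →
      ∃ (ν : R) (d : ℕ → ℤ), ν = ∑ i ∈ range (2 ^ m), (d i : R) * x ^ i ∧ (∀ i, Even i → d i = 0) ∧
        b ν = -ν ∧ ν * b ν = 2 + (x ^ e + b x ^ e) - (x ^ (2 * e) + b x ^ (2 * e)) - (x ^ 2 + b x ^ 2)

/-- Row UC1 (medium): `[2i] + [e] = [2] + [2e]` is impossible (`i` odd, `e` even, `N` does not divide `2e`).  PROOF.  `N = 2^m`, `16 | N`.  `b(x)^k = x^(-k)`;
only `k` mod `2N` matters, `[k + N] = -[k]`, and `[k] = x^k - x^(N-k)` for `0 < k < N` (a combination of `x^k, x^(N-k)`, exponents congruent to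
`± k` mod 4).  Split the identity into the exponents `0 mod 4` and `2 mod 4` (all of `2i, e, 2, 2e` are even, `4 | N`; `Bas`).
Case `4 | e`: exponents `0 mod 4`: `[e] = [2e]`, i.e. `x^e + x^(-e) = x^(2e) + x^(-2e)`, multiply by `x^(2e)`:
`x^(3e) + x^e = x^(4e) + 1`, `(x^(3e) - 1)(x^e - 1) = 0`.. (check: `x^(4e) - x^(3e) - x^e + 1 = (x^(3e) - 1)(x^e - 1)`; if `R` is a domain one factor vanishes;
in any case compare coefficients): `e = 0 mod 2N` or `3 e = 0 mod 2N`, both give `N | e`, contradiction.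
Case `e = 2 mod 4`: `2e = 0 mod 4` and `[2i], [e], [2]` have exponents `2 mod 4`: so `[2e] = 0`, `x^(4e) = -1`, `4 e = N mod 2N`, `N | 4e`,
`4 | N/4 | e`, contradiction with `e = 2 mod 4`. -/
def UC1_stmt : Prop :=
  ∀ (m : ℕ) (R : Type) [CommRing R] [IsDomain R] (x : R) (b : R ≃+* R), 4 ≤ m → Bas (2 ^ m) x → IsBar x b →
    ∀ i e : ℕ, Odd i → Even e → ¬ 2 ^ m ∣ 2 * e →
      x ^ (2 * i) + b x ^ (2 * i) + (x ^ e + b x ^ e) = x ^ 2 + b x ^ 2 + (x ^ (2 * e) + b x ^ (2 * e)) → False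

/-- Row UC2 (short-medium): `[2i] + [2j] + 2 w = [2]` is impossible for `i < j < N/2` odd, by parity.  PROOF.  `[k] = x^k - x^(N-k)` for
`0 < k < N` (`b x = - x^(N-1)`, `b(x)^k = - x^(N-k)`).  For odd `i < N/2` the numbers `2i, N - 2i` are different (`2i = 2 mod 4`, `N/2 = 0 mod 4`),
and for `i < j < N/2`... the four exponents `2i, N-2i, 2j, N-2j`: either all different, or `2j = N - 2i` and then `[2j] = [N - 2i] = x^(N-2i) - x^(2i) = -[2i]`.
Coefficients of `x^2`, ... modulo 2 (`Bas`): the left side has `4` (or `0`) odd coefficients, the right side has exactly `2` (at `2` and `N-2`).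
(Simplest: if all four are different, two of them are outside `{2, N-2}`: the coefficient there is `±1 + 2 w_k = 0`, impossible.  If
`[2j] = -[2i]`: coefficient of `x^2`: `2 w_2 = 1`.) -/
def UC2_stmt : Prop :=
  ∀ (m : ℕ) (R : Type) [CommRing R] (x : R) (b : R ≃+* R), 4 ≤ m → Bas (2 ^ m) x → IsBar x b →
    ∀ (i j : ℕ) (w : ℕ → ℤ), Odd i → Odd j → i < j → 2 * j < 2 ^ m →
      x ^ (2 * i) + b x ^ (2 * i) + (x ^ (2 * j) + b x ^ (2 * j)) + 2 * (∑ k ∈ range (2 ^ m), (w k : R) * x ^ k)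
        = x ^ 2 + b x ^ 2 → False

/-- Row UF2 (medium; hypotheses CST, UNU, UC1, UC2): `A` cannot have squared length 2.  PROOF.  `N = 2^m`.  `A` has two non-zero coefficients `±1` at
even places `i1 < i2`: as `-1 = x^N`, `A = x^j (1 + x^e)` with `j` in `{i1, i1 + N}`, `e` in `{i2 - i1, i2 - i1 + N}`, both even, `N` does not divide `e`.
UNU: `nu = sum d_i x^i`, only odd `i`, `b nu = - nu`, `nu * b nu = 2 + [e] - [2e] - [2]`.  From `b x^i = - x^(N-i)`: `d_(N-i) = d_i` for `0 < i < N`.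
CST: `sum d_i^2` = constant coefficient of the right side = `2` if `N` does not divide `2e`, and `4` if `N | 2e` (then `2e = N mod 2N`, `[2e] = -2`, `[e] = 0` as
`e = N/2 mod N`); the constant coefficients of `[e], [2]` are `0`.
(i) `sum d_i^2 = 2`: by symmetry `nu = ± (x^i + x^(N-i)) = ± (x^i - x^(-i))`, `i < N/2` odd (`N/2` is even), `nu * b nu = 2 - [2i]`: so
`[2i] + [e] = [2] + [2e]`, UC1.
(ii) `sum d_i^2 = 4`: `nu = μ1 (x^i - x^(-i)) + μ2 (x^j - x^(-j))`, `i < j < N/2` odd, `μ = ±1` (`2 sum_(i<N/2) d_i^2 = 4`),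
`nu * b nu = - nu^2 = 4 - [2i] - [2j] - 2 μ1 μ2 ([i+j] - [j-i])` and it equals `4 - [2]`: UC2 with `w = μ1 μ2 ([i+j] - [j-i])`. -/
def UF2_stmt : Prop :=
  ∀ (m : ℕ) (R : Type) [CommRing R] [IsDomain R] (x : R) (b : R ≃+* R), 4 ≤ m → Bas (2 ^ m) x → IsBar x b →
    ∀ (c c' : ℕ → ℤ) (A B : R), A = ∑ i ∈ (range (2 ^ m)).filter (fun i => Even i), (c i : R) * x ^ i →
      B = ∑ i ∈ (range (2 ^ m)).filter (fun i => ¬ Even i), (c' i : R) * x ^ i →
      ∑ i ∈ (range (2 ^ m)).filter (fun i => Even i), (c i) ^ 2 = 2 →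
      A * b A + B * b B = 5 → A * b B + b A * B = -(2 * (x + b x)) → False

/-- Row UFI (medium; hypotheses UEO, UT1, UF2).  PROOF.  `(2 - x)(2 - b x) = 5 - 2 (x + b x)`.  UEO: `A`, `B`, `T(A) + T(B) = 5` for the sums of squares of the
even / odd coefficients.  `T(A) = 0`: `A = 0`, `0 = -2(x + b x) = -2 (x - x^(N-1))`, impossible.  `T(A) = 1`: `A = ± x^j`, `= x^j` or `x^(j+N)`, UT1.
`T(A) = 2`: UF2.  For the other cases replace `ρ` by `x ρ`: `A' = x B`, `B' = x A` are again an even and an odd combination (coefficients shifted by one, with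
`x^N = -1` : `c'_0 = - c_(N-1)`), `A' b A' + B' b B' = 5`, `A' b B' + b A' B' = b A B + A b B`, `T(A') = T(B)`; `T(B) = 0` impossible, `1`: UT1 for
`x ρ`, then multiply by `x^(2N-1)`; `2`: UF2. -/
def U_stmt : Prop :=
  ∀ (m : ℕ) (R : Type) [CommRing R] [IsDomain R] (x : R) (b : R ≃+* R), 4 ≤ m → Bas (2 ^ m) x → IsBar x b →
    ∀ (c : ℕ → ℤ) (ρ : R), ρ = ∑ i ∈ range (2 ^ m), (c i : R) * x ^ i →
      ρ * b ρ = (2 - x) * (2 - b x) → ∃ j : ℕ, ρ = x ^ j * (2 - x) ∨ ρ = x ^ j * (2 - b x)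

/-- Row IRR (short-medium; hypotheses BAS, BIN, CPR, QUK, QUO, U): `2 - z` is irreducible.  PROOF.  Not a unit: else `2 - z | 1`, `F_m | 1` (QUK with `l = 1`, `a = 2`).
`m <= 4`: `F_m` is prime (3, 5, 17, 257, 65537: `norm_num`), and then `2 - z` is prime: if it divides `u v`, `u = n1`, `v = n2` modulo `2 - z` (QUO), so
`2 - z | n1 n2`, `F_m | n1 n2`, `F_m | n1` say, `2 - z | F_m | n1`.  `m >= 4`: `2 - z = δ ε`, `ρ = b δ * ε`, `ρ * b ρ = (2 - z)(2 - b z)`, U: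
`ρ = z^j (2 - z) = z^j δ ε` gives `b δ = z^j δ`, so `δ` divides `b δ` and `b δ` divides `2 - b z`; `2 - z` and
`2 - b z = ff 2 z (2^(m+1) - 1)` are coprime (CPR with `c = 0`: `1 - (2^(m+1) - 1) = 2 - 2^(m+1)` is not divisible by `2^(m+1)`), so `δ` is a unit.
`ρ = z^j (2 - b z) = z^j b δ b ε` gives `ε = z^j b ε` and `ε` is a unit in the same way. -/
def IRR_stmt : Prop :=
  ∀ (m : ℕ) (K : Type) [Field K] [NumberField K] [IsCyclotomicExtension {2 ^ (m + 1)} ℚ K]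
    (z : 𝓞 K), IsPrimitiveRoot z (2 ^ (m + 1)) → Irreducible (2 - z)

/-- Row UFD (short; hypotheses BAS, QUK, IRR).  PROOF.  In a UFD the irreducible `2 - z` is prime.  If `F_m = u v` with integers `1 < u, v`, then
`2 - z | F_m = u v` (QUK, `l = 1`), so `2 - z | u` say, `F_m | u`, contradiction. -/
def UFD_stmt : Prop :=
  ∀ (m : ℕ) (K : Type) [Field K] [NumberField K] [IsCyclotomicExtension {2 ^ (m + 1)} ℚ K],
    UniqueFactorizationMonoid (𝓞 K) → Nat.Prime (fer m)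

/-- Row NRM (medium; hypotheses BAS, QUK, IRR): a prime factor of `F_m` which is a norm is `F_m` itself.  PROOF.  `|Norm w| = p`: the ring `𝓞 K/(w)` has `p` elements
(`Ideal.absNorm_span_singleton`, `Ideal.absNorm_apply`, `Submodule.cardQuot_apply`), so the map `ZMod p → 𝓞 K/(w)` is bijective (a ring with `p` elements,
characteristic `p`; `ZMod.ringEquivOfPrime`), a field.  There the image `z'` of `z` satisfies `z'^(2^m) = -1` and `2^(2^m) = -1` (`p | F_m`), `p` odd, so both have order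
`2^(m+1)` in the cyclic group `(ZMod p)ˣ`; so `2 = z'^t` for some `t` (`IsPrimitiveRoot.eq_pow_of_pow_eq_one`), `t` odd because `(-1)^t = -1`.  Hence `w | 2 - z^t`.
Automorphism `s` with `s z = z^t` (BAS): `2 - z^t = s (2 - z)` is irreducible.  So `w` is a unit (then `Norm w = ±1`, contradiction) or associated to `2 - z^t`.
`w | p` (`Algebra.norm`: `NumberField` lemma `RingOfIntegers.dvd_norm` / `Ideal`: `w` divides its norm; or: `p` kills `𝓞 K/(w)`), so `2 - z^t | p`, apply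
`s⁻¹`: `2 - z | p`, QUK: `F_m | p`, so `p = F_m`. -/
def NRM_stmt : Prop :=
  ∀ (m : ℕ) (K : Type) [Field K] [NumberField K] [IsCyclotomicExtension {2 ^ (m + 1)} ℚ K]
    (p : ℕ), p.Prime → p ∣ fer m → ∀ w : 𝓞 K, (Algebra.norm ℤ w).natAbs = p → p = fer m

/-! ## Block R: ideals, no short relations -/

/-- Row ANR (short-medium; hypotheses QUK, QUO): the ideal `(a - z^t)`, `t` odd, has norm `a^(2^m) + 1`.  PROOF.  `t = 1`: the map `ℤ → 𝓞 K/(a - z)` is surjective (QUO) with kernel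
`(a^N + 1)` (QUK, `l = 1`), so the quotient has `a^N + 1` elements (`Int.card..`, `Int.quotientSpanEquivZMod`, `Ideal.absNorm_apply`, `Submodule.cardQuot_apply`).
General `t`: the automorphism `s`, `s z = z^t`, maps `(a - z)` to `(a - z^t)` (`Ideal.quotientEquiv`). -/
def ANR_stmt : Prop :=
  ∀ (m a t : ℕ) (K : Type) [Field K] [NumberField K] (z : 𝓞 K), Cyc (2 ^ m) z → Odd t →
    Ideal.absNorm (Ideal.span {ff a z t}) = a ^ (2 ^ m) + 1

/-- Row NPP (short-medium): `d^e = F_n^j` with `0 < j < e` is impossible (a Fermat number is not a perfect power).  PROOF.  Let `g = gcd(e, j)`, `e = g e'`, `j = g j'`: `d^(e') = F_n^(j')`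
(`Nat.pow_left_injective`), `e'`, `j'` coprime, `e' >= 2`; so `F_n = h^(e')` for some `h` (`Nat.exists_eq_pow_of_mul_eq..`; e.g. `exists_eq_pow_of_pow_eq`:
`Nat.eq_pow_of_..`; or valuations: for every prime `q`, `e' v_q(d) = j' v_q(F_n)` so `e' | v_q(F_n)`; Bezout `1 = u e' - v j'` also works:
`F_n^(u e') = F_n^(1 + v j') = F_n d^(v e')`, so `F_n = (F_n^u / d^v)^(e')`).  Then `h^(e') - 1 = 2^(2^n)`.  If `e'` is odd:
`h^(e') - 1 = (h-1)(h^(e'-1) + ... + 1)`, `h` odd, the second factor is odd (`e'` odd terms) and `> 1`, but divides a power of 2.  If `e'` is even, `h^(e') = k^2`,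
`(k-1)(k+1) = 2^(2^n)`, two powers of 2 which differ by 2: `2, 4`, product `8 = 2^3`, `2^n = 3` impossible. -/
def NPP_stmt : Prop :=
  ∀ n j e d : ℕ, 0 < j → j < e → d ^ e = fer n ^ j → False

/-- Row RL1 (short-medium): separate coprime parts.  PROOF.  In a Dedekind domain (only cancellation / divisibility of ideals used).  `t in s`: `I t ^ e t` divides
`∏ (F u)^(j u)`, and is coprime to `(F u)^(j u)` for `u ≠ t` (`I t | F t`, `F t` and `F u` coprime; `IsCoprime.prod_right`, `IsCoprime.pow`), so it divides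
`(F t)^(j t)` (`IsCoprime.dvd_of_dvd_mul_left`).  Conversely `(F t)^(j t)` divides `∏ (I u)^(e u)` and is coprime to `I u`, `u ≠ t`, so it divides `(I t)^(e t)`.
`dvd_antisymm`. -/
def RL1_stmt : Prop :=
  ∀ (R : Type) [CommRing R] [IsDomain R] [IsDedekindDomain R] (s : Finset ℕ) (I J : ℕ → Ideal R) (e j : ℕ → ℕ),
    (∀ t ∈ s, I t ∣ J t) → (∀ t ∈ s, ∀ u ∈ s, t ≠ u → IsCoprime (J t) (J u)) →
    (∏ t ∈ s, (I t) ^ (e t)) = ∏ t ∈ s, (J t) ^ (j t) → ∀ t ∈ s, (I t) ^ (e t) = (J t) ^ (j t)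

/-- Row REL (medium; hypotheses BAS, H, CPR, QUK, PDI, ANR, NPP, RL1): no multiplicative relation of length `<= r` between the classes of the conjugates of the proper divisors.
PROOF.  `a = 2^(2^c)`, `f_t = a - z^t`, `I_t = (D_t, f_t)`.  `f_t = s(f_1)` for the automorphism with `s z = z^t`; QUK (`l = 1`) for `f_1`, transported by `s`, and PDI
(`F = a^(2^m) + 1 = 2^(2^c 2^m) + 1 = fer (m+c)`): `I_t ≠ ⊤`, `I_t ≠ (f_t)`, `I_t | (f_t)`.  Suppose `∏ I_t^(e_t) = (δ)`.  It divides `∏ (f_t)^(e_t)`, so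
`δ | ∏_(t in s') f_t`, `s'` = the multiset with `e_t` copies of `t` (`∑ t ∈ s, e t • {t}` / `Multiset.replicate`), of cardinality `<= r`.  H: `δ` is associated to
`∏_(t in s'') f_t`, `s'' <= s'`; with `j_t = s''.count t <= e_t`: `∏ I_t^(e_t) = ∏ (f_t)^(j_t)` (`Finset.prod_multiset_count_of_subset`).  RL1 (`J_t = (f_t)`, coprime by
CPR, `Ideal.isCoprime_span_singleton_iff`): `I_t^(e_t) = (f_t)^(j_t)`.  Take a `t in s`.  `absNorm`: `d = absNorm I_t`, `d^(e_t) = F^(j_t)` (ANR).  `j_t = 0`: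
`I_t^(e_t) = 1`, `I_t = ⊤`, no.  `j_t = e_t`: `(f_t) = I_t J`, `I_t^(e_t) = I_t^(e_t) J^(e_t)`, `J = ⊤`, `I_t = (f_t)`, no.  `0 < j_t < e_t`: NPP. -/
def REL_stmt : Prop :=
  ∀ (m c r : ℕ) (K : Type) [Field K] [NumberField K] [IsCyclotomicExtension {2 ^ (m + 1)} ℚ K]
    (z : 𝓞 K), IsPrimitiveRoot z (2 ^ (m + 1)) → 1 ≤ r →
    (32 * r) ^ ((2 ^ (2 ^ c) + 1) ^ (2 * r) + r) < 2 ^ m →
    ∀ s : Finset ℕ, s.Nonempty → (∀ t ∈ s, Odd t) →
      (∀ t ∈ s, ∀ u ∈ s, t ≠ u → ¬ ((2 : ℤ) ^ (m + 1) ∣ (t : ℤ) - u)) →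
      (∀ t ∈ s, ∀ u ∈ s, ¬ 2 ^ (m + 1) ∣ t + u) →
      ∀ D e : ℕ → ℕ, (∀ t ∈ s, D t ∣ fer (m + c) ∧ 1 < D t ∧ D t < fer (m + c) ∧ 1 ≤ e t) →
        ∑ t ∈ s, e t ≤ r →
        ¬ (∏ t ∈ s, (Ideal.span {(D t : 𝓞 K), ff (2 ^ (2 ^ c)) z t}) ^ (e t)).IsPrincipal

/-! ## Block T: the cyclotomic tower -/

/-- Row TW0 (short).  PROOF.  `(y^l)^N = y^(lN) = -1`; a relation between the `y^(l i)`, `i < N`, is a relation between the `y^k`, `k < lN` (coefficient `0` if `l` does not divide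
`k`, `c (k/l)` otherwise). -/
def TW0_stmt : Prop :=
  ∀ (N l : ℕ) (R : Type) [CommRing R] (y : R), 1 ≤ l → Bas (l * N) y → Bas N (y ^ l)

/-- Row TWA (short; hypothesis CST).  PROOF.  `w = sum c_i y^i`, `w * b w = 1`, CST: `sum c_i^2 = 1`: exactly one `c_i ≠ 0`, `= ±1`, `w = y^i` or `w = -y^i = y^(i+n)`. -/
def TWA_stmt : Prop :=
  ∀ (n : ℕ) (R : Type) [CommRing R] (y : R) (b : R ≃+* R), 1 ≤ n → Cyc n y → IsBar y b →
    ∀ w : R, w * b w = 1 → ∃ i : ℕ, w = y ^ i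

/-- Row TWB (medium): one step down.  PROOF.  `n = 2^κ`, `Y = y^(2^h)`, `n'' = 2^(κ-h) >= 4`, `Y^(n'') = -1`, `τ Y = y^(2^h + 2^κ) = -Y`.  `ρ = y^i ρ0(Y)`,
`τ ρ = y^(i(1+n'')) ρ0(-Y) = y^c y^i ρ0(Y)`, so `ρ0(-Y) = y^(c') ρ0(Y)` (`y` is a unit, `c'` a natural number).  Both `ρ0(±Y)` are non-zero combinations of `Y^j`, `j < n''`, i.e. of
`y^k`, `k < n`, `2^h | k`; multiplication by `y^(c')` shifts the exponents by `c'` (mod `n`, up to sign), so `2^h | c'` (look at one non-zero coefficient), `y^(c') = Y^(c'')`.  Apply `τ` again: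
`ρ0(Y) = (-Y)^(c'') ρ0(-Y) = (-1)^(c'') Y^(2c'') ρ0(Y)`, so `(-1)^(c'') Y^(2c'') = 1` (domain).  `Y` has order `2 n''`.  `c''` odd: `Y^(2c'') = -1 = Y^(n'')`,
`2 c'' = n'' mod 2n''`, `c'' = n''/2 mod n''` is even (`4 | n''`), contradiction.  `c''` even: `2 n'' | 2 c''`, `n'' | c''`, `Y^(c'') = ±1`.  So `ρ0(-Y) = ± ρ0(Y)`: only even (or only odd)
`j` occur (`Bas`), `ρ0 = ρ1(Y^2)` or `Y ρ1(Y^2)`. -/
def TWB_stmt : Prop :=
  ∀ (κ h : ℕ) (R : Type) [CommRing R] [IsDomain R] (y : R), h + 2 ≤ κ → Cyc (2 ^ κ) y →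
    ∀ τ : R ≃+* R, τ y = y ^ (1 + 2 ^ (κ - h)) → ∀ ρ : R, ρ ≠ 0 → (∃ c : ℕ, τ ρ = y ^ c * ρ) →
      (∃ (i : ℕ) (d : ℕ → ℤ), ρ = y ^ i * ∑ j ∈ range (2 ^ (κ - h)), (d j : R) * (y ^ (2 ^ h)) ^ j) →
      ∃ (i : ℕ) (d : ℕ → ℤ), ρ = y ^ i * ∑ j ∈ range (2 ^ (κ - (h + 1))), (d j : R) * (y ^ (2 ^ (h + 1))) ^ j

/-- Row TWC (short; hypothesis TWB).  PROOF.  Induction on `H` (statement for `h <= H`): `h = 0` is the spanning part of `Cyc` (`i = 0`); step: TWB with the automorphism `τ y = y^(1+2^(κ-h))` from `Cyc`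
(`1 + 2^(κ-h)` odd since `κ - h >= 1`). -/
def TWC_stmt : Prop :=
  ∀ (κ H : ℕ) (R : Type) [CommRing R] [IsDomain R] (y : R), H + 1 ≤ κ → Cyc (2 ^ κ) y → ∀ ρ : R, ρ ≠ 0 →
    (∀ h < H, ∀ τ : R ≃+* R, τ y = y ^ (1 + 2 ^ (κ - h)) → ∃ c : ℕ, τ ρ = y ^ c * ρ) →
    ∃ (i : ℕ) (d : ℕ → ℤ), ρ = y ^ i * ∑ j ∈ range (2 ^ (κ - H)), (d j : R) * (y ^ (2 ^ H)) ^ j

/-- Row TWD (short).  PROOF.  `τ` maps the ideal `(D, f)` to itself, so `τ δ = u δ` with a unit `u` (`Ideal.span_singleton_eq_span_singleton`; `Ideal.map` of `span {D, f}`), and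
`τ ε = u⁻¹ ε` from `τ f = f = δ ε`, `δ ≠ 0`.  `τ (b δ * ε) = b (τ δ) * τ ε = b(u) u⁻¹ (b δ * ε)`.  `w = b(u) u⁻¹`: `w * b w = b(u) u⁻¹ u b(u)⁻¹ = 1`. -/
def TWD_stmt : Prop :=
  ∀ (R : Type) [CommRing R] [IsDomain R] (b τ : R ≃+* R), (∀ a, b (b a) = a) → (∀ a, τ (b a) = b (τ a)) →
    ∀ (D : ℕ) (f δ ε : R), f ≠ 0 → τ f = f → Ideal.span {(D : R), f} = Ideal.span {δ} → δ * ε = f →
      ∃ w : R, w * b w = 1 ∧ τ (b δ * ε) = w * (b δ * ε)

/-- Row TOW (medium; hypotheses BAS, BIN, CPR, QUK, PDI, U, TW0, TWA, TWC, TWD): in the whole tower.  PROOF.  `m <= 4`: `fer m` is prime (3, 5, 17, 257, 65537), no `D`.  `m >= 5`: `κ = k - 1`, `H = k - (m+1)`,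
`x = y^(2^H)`, `2^κ = 2^H 2^m`.  BAS for `L` : `Cyc (2^κ) y`; BIN: `b`.  Suppose `(D, 2 - x) = (δ)`; `2 - x = δ ε`; `ρ = b δ * ε ≠ 0`, `ρ * b ρ = (2 - x)(2 - b x)`.  For `h < H` and `τ y = y^(1+2^(κ-h))`:
`τ x = x^(1+2^(κ-h)) = x * y^(2^(κ+H-h)) = x` (`κ + H - h >= κ + 1`, `y^(2^(κ+1)) = 1`), so TWD (`τ` commutes with `b` by BIN) and TWA: `τ ρ = y^c ρ`.  TWC: `ρ = y^i ρ0`, `ρ0 = sum_(j<2^m) d_j x^j`,
`ρ0 * b ρ0 = (2 - x)(2 - b x)`.  U (`Bas (2^m) x` by TW0): `ρ0 = x^j (2 - x)` or `x^j (2 - b x)`.  First case: `b δ * ε = y^(c') δ ε`, `b δ = y^(c') δ`, so `δ` divides `2 - x` and `b δ | 2 - b x`;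
these are coprime (CPR with `c = 0`, `2 - b x = ff 2 x (2^(m+1) - 1)`), `δ` is a unit, ideal `⊤`, contradiction with PDI (QUK with `N = 2^m`, `l = 2^H`, `a = 2`).  Second case:
`b δ * ε = y^(c') b δ * b ε`, `ε = y^(c') b ε` is a unit, ideal `= (2 - x)`, contradiction with PDI. -/
def TOW_stmt : Prop :=
  ∀ (m D : ℕ), D ∣ fer m → 1 < D → D < fer m → ∀ k : ℕ, m + 1 ≤ k →
    ∀ (L : Type) [Field L] [NumberField L] [IsCyclotomicExtension {2 ^ k} ℚ L] (y : 𝓞 L),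
      IsPrimitiveRoot y (2 ^ k) → ¬ (Ideal.span {(D : 𝓞 L), ff 2 y (2 ^ (k - (m + 1)))}).IsPrincipal

/-! ## The theorem -/

/-- The result.  (1) `2 - z` is irreducible.  (2) `𝓞 K` a UFD implies `F_m` prime.  (3) `F_m` composite: the ideal `(D, 2 - zeta_(2^(m+1)))`, `D` a proper divisor, is not principal in any
`Q(zeta_(2^k))`, `k >= m + 1`.  (4) A prime factor of `F_m` which is a norm is `F_m`.  (5) Short products of conjugates factor uniquely.  (6) No short relations. -/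
def RES_stmt : Prop := IRR_stmt ∧ UFD_stmt ∧ TOW_stmt ∧ NRM_stmt ∧ H_stmt ∧ REL_stmt

end Pool.Agent.UF
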